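import Mathlib

/-!
# Anisotropic Strichartz estimates: definitions and statements of the modules

`S_...` are the statements of the modules of the project `MP_65a63f_AS`.  See the page
`MP_65a63f_AS_h64.md` (team store).
-/

set_option autoImplicit false

open Finset MeasureTheory

namespace Pool.Agent.Helper64.AS

/-! ## Exponentials and kernels -/

/-- `exp(2πix)` -/
noncomputable def ee (x : ℝ) : ℂ := Complex.exp (((2 * Real.pi * x : ℝ) : ℂ) * Complex.I)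

/-- The Dirichlet kernel. -/
noncomputable def dir (M : ℕ) (x : ℝ) : ℂ := ∑ j ∈ range M, ee (j * x)

/-- The Fejer kernel. -/
noncomputable def fej (M : ℕ) (x : ℝ) : ℝ := ‖dir M x‖ ^ 2 / M

def S_fej : Prop :=
  (∀ x y : ℝ, ee (x + y) = ee x * ee y) ∧ (∀ x : ℝ, ‖ee x‖ = 1) ∧ (∀ k : ℤ, ee k = 1) ∧
  (∀ x : ℝ, (starRingEnd ℂ) (ee x) = ee (-x)) ∧
  (∀ (M : ℕ) (x : ℝ), 0 ≤ fej M x) ∧ (∀ (M : ℕ) (x : ℝ), fej M x ≤ M) ∧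
  (∀ (M : ℕ) (x : ℝ) (k : ℤ), fej M (x + k) = fej M x) ∧
  (∀ (M : ℕ) (x : ℝ), 1 ≤ M →
    ∑ i ∈ range M, ∑ j ∈ range M, ee (((i : ℝ) - j) * x) = ((M * fej M x : ℝ) : ℂ)) ∧
  (∀ (M : ℕ) (x : ℝ), 1 ≤ M → 0 < x → x < 1 → fej M x ≤ 1 / (4 * M * (min x (1 - x)) ^ 2)) ∧
  (∀ M : ℕ, Continuous (fej M)) ∧
  (∀ (M : ℕ) (c : ℝ), 1 ≤ M →
    ∫ t in (0 : ℝ)..(2 * Real.pi), fej M ((t - c) / (2 * Real.pi)) = 2 * Real.pi)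

/-- Sums of the Fejer kernel over separated points. -/
def S_space : Prop :=
  ∀ (ι : Type) (P : Finset ι) (x : ι → ℝ) (δ : ℝ) (M : ℕ), 0 < δ → 1 ≤ M →
    (∀ p ∈ P, ∀ q ∈ P, p ≠ q → ∀ k : ℤ, δ ≤ |x p - x q - k|) →
    ∑ p ∈ P, fej M (x p) ≤ 10 * (M + 1 / δ)

/-- Quadratic Gauss sums. -/
def S_gauss : Prop :=
  ∀ (d : ℕ) (a b : ℤ), Odd d → IsCoprime a (d : ℤ) →
    ‖∑ m ∈ range d, ee (((a : ℝ) * m ^ 2 + b * m) / d)‖ ^ 2 = d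

/-- Smoothed Weyl sums at a rational point. -/
def S_weyl : Prop :=
  ∀ (d M : ℕ) (a : ℤ) (x : ℝ), Odd d → IsCoprime a (d : ℤ) → 1 ≤ M →
    ‖∑ i ∈ range M, ∑ j ∈ range M, ee (((i : ℝ) - j) * x - ((i : ℝ) - j) ^ 2 * (a / d))‖ ≤
      10 * M * (M + d) / Real.sqrt d

/-! ## The sieve functions -/

/-- `(l/p) + ε 1_{p | l}` -/
noncomputable def psi (ε : ℝ) (p : ℕ) (l : ℤ) : ℝ :=
  (jacobiSym l p : ℝ) + ε * (if (p : ℤ) ∣ l then 1 else 0)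

/-- The product over a set of primes. -/
noncomputable def phi (ε : ℝ) (A : Finset ℕ) (l : ℤ) : ℝ := ∏ p ∈ A, psi ε p l

def S_psi : Prop :=
  (∀ (p : ℕ) (ε : ℝ), p.Prime → p ≠ 2 → (ε = 0 ∨ ε = 1) → ∃ c : ℕ → ℂ,
    (∀ l : ℤ, ((psi ε p l : ℝ) : ℂ) = ∑ h ∈ range p, c h * ee ((h : ℝ) * l / p)) ∧
    ‖c 0‖ ≤ ε / p ∧ ∀ h, 0 < h → h < p → ‖c h‖ ≤ (1 + 1 / Real.sqrt p) / Real.sqrt p) ∧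
  (∀ (p : ℕ) (l : ℤ), p.Prime → psi 1 p l ^ 2 = 1) ∧
  (∀ (p : ℕ) (n : ℤ), p.Prime → psi 1 p (n ^ 2) = 1) ∧
  (∀ (p : ℕ) (l : ℤ), p.Prime → psi 0 p l ^ 2 ≤ 1) ∧
  (∀ (p : ℕ) (n : ℤ), p.Prime → ¬ (p : ℤ) ∣ n → psi 0 p (n ^ 2) = 1) ∧
  (∀ (p : ℕ) (n : ℤ), p.Prime → (p : ℤ) ∣ n → psi 0 p (n ^ 2) = 0)

/-- Index set for the space frequencies. -/
abbrev IJ (r M' : ℕ) : Finset (Fin r → ℕ) := Fintype.piFinset (fun _ : Fin r => range M')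

/-- The kernel of a set of primes. -/
noncomputable def KA (r M M' : ℕ) (k₀ : ℤ) (ε : ℝ) (A : Finset ℕ) (t : ℝ) (x : Fin r → ℝ) : ℂ :=
  ∑ i ∈ range M, ∑ j ∈ range M, ∑ I ∈ IJ r M', ∑ J ∈ IJ r M',
    ((phi ε A (k₀ + i - j - ∑ l, ((I l : ℤ) - J l) ^ 2) : ℝ) : ℂ) *
      ee (∑ l, ((I l : ℝ) - J l) * x l - (k₀ + i - j) * t)

/-- The sum of the Fejer kernel over the reduced fractions of denominator `d`. -/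
noncomputable def TT (M d : ℕ) (t : ℝ) : ℝ :=
  ∑ a ∈ (range d).filter (Nat.Coprime d), fej M ((a : ℝ) / d - t)

/-- The weight of a denominator. -/
noncomputable def ff (r M' d : ℕ) : ℝ :=
  (10 * M' * (M' + d) / Real.sqrt d) ^ r / Real.sqrt d

/-- Bound of the kernel of a set of primes. -/
def S_KA : Prop :=
  ∀ (r M M' : ℕ) (k₀ : ℤ) (ε : ℝ) (A : Finset ℕ) (t : ℝ) (x : Fin r → ℝ), 1 ≤ M → 1 ≤ M' →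
    (ε = 0 ∨ ε = 1) → (∀ p ∈ A, p.Prime ∧ p ≠ 2) →
    ‖KA r M M' k₀ ε A t x‖ ≤ ∑ s ∈ A.powerset, (∏ p ∈ A \ s, ε / p) *
      (∏ p ∈ s, (1 + 1 / Real.sqrt p)) * (M * ff r M' (∏ p ∈ s, p) * TT M (∏ p ∈ s, p) t)

/-- Reduced fractions with denominators `u v`. -/
def S_T : Prop :=
  ∀ (M u Y : ℕ) (V : Finset ℕ) (t : ℝ), 1 ≤ M → 1 ≤ u → (∀ v ∈ V, 1 ≤ v ∧ v ≤ Y) →
    ∑ v ∈ V, TT M (u * v) t ≤ 10 * (M + u * (Y : ℝ) ^ 2)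

/-- The kernel bound for the middle levels. -/
def S_mid : Prop :=
  ∀ r : ℕ, 1 ≤ r → ∃ C : ℝ, 0 < C ∧ ∀ (M M' X : ℕ) (k₀ : ℤ) (Q : Finset ℕ) (t : ℝ)
    (x : Fin r → ℝ), 1 ≤ M → 1 ≤ M' → 2 ≤ X → M ≤ X ^ 4 → M' ≤ X ^ 2 →
    (∀ q ∈ Q, q.Prime ∧ X < q ∧ q ≤ 4 * X) →
    ∑ q ∈ Q, ∑ q' ∈ Q.erase q, ‖KA r M M' k₀ 0 {q, q'} t x‖ ≤ C * M * M' ^ r * X ^ (r + 3)

/-- The kernel bound for the top levels. -/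
def S_top : Prop :=
  ∀ r : ℕ, 1 ≤ r → ∃ C : ℝ, 0 < C ∧ ∀ (M M' X D : ℕ) (z : ℝ) (k₀ : ℤ) (𝒜 : Finset (Finset ℕ))
    (t : ℝ) (x : Fin r → ℝ), 2 ≤ z → 1 ≤ M' → 1 ≤ X → 16 * X ^ 2 ≤ M → M' ≤ D →
    4 * X * M ≤ D ^ 2 →
    (∀ A ∈ 𝒜, (∀ p ∈ A, p.Prime ∧ z < p) ∧ (∏ p ∈ A, p) ≤ 4 * X ∧
      ∑ p ∈ A, 1 / Real.sqrt p ≤ 1) →
    ∑ A ∈ 𝒜, ∑ A' ∈ 𝒜.erase A, ‖KA r M M' k₀ 1 (symmDiff A A') t x‖ ≤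
      C * M * M' ^ r * (M * M' ^ r * X / Real.sqrt z +
        M * X * (Real.sqrt D) ^ r * (1 + Real.log D) + X ^ (r + 3))

/-! ## Primes and rough numbers -/

/-- Chebyshev. -/
def S_primes : Prop :=
  ∃ c : ℝ, 0 < c ∧ ∀ X : ℕ, 2 ≤ X →
    c * X / Real.log X ≤ (((Finset.Ioc X (4 * X)).filter Nat.Prime).card : ℝ)

/-- Many rough squarefree numbers `≤ 4X`. -/
def S_rough : Prop :=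
  ∃ (c z₀ : ℝ) (κ : ℕ), 0 < c ∧ 2 ≤ z₀ ∧ ∀ (z : ℝ) (X : ℕ), z₀ ≤ z → z ^ 2 ≤ X →
    ∃ 𝒜 : Finset (Finset ℕ),
      (∀ A ∈ 𝒜, (∀ p ∈ A, p.Prime ∧ z < p) ∧ (∏ p ∈ A, p) ≤ 4 * X ∧
        ∑ p ∈ A, 1 / Real.sqrt p ≤ 1) ∧
      c * X / (Real.log z) ^ κ ≤ (𝒜.card : ℝ)

/-! ## The function and the duality argument -/

/-- The exponential sum with frequencies in `S`. -/
noncomputable def FF (r : ℕ) (S : Finset (ℤ × (Fin r → ℤ))) (a : ℤ × (Fin r → ℤ) → ℂ) (t : ℝ)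
    (x : Fin r → ℝ) : ℂ :=
  ∑ ξ ∈ S, a ξ * Complex.exp
    (((∑ l, x l * ξ.2 l - t * ((ξ.1 : ℝ) ^ 2 + ∑ l, (ξ.2 l : ℝ) ^ 2) : ℝ) : ℂ) * Complex.I)

/-- The cube `[0,2π]^{1+r}`. -/
def cube (r : ℕ) : Set (ℝ × (Fin r → ℝ)) :=
  Set.Icc 0 (2 * Real.pi) ×ˢ Set.Icc 0 (fun _ => 2 * Real.pi)

/-- Frequencies `S₀ × Π [β_l, β_l + L]`. -/
noncomputable def bx (r : ℕ) (S₀ : Finset ℤ) (β : Fin r → ℤ) (L : ℕ) : Finset (ℤ × (Fin r → ℤ)) :=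
  S₀ ×ˢ Fintype.piFinset (fun l => Finset.Icc (β l) (β l + L))

/-- The duality argument. -/
def S_dual : Prop :=
  ∀ (r M M' L : ℕ) (k₀ : ℤ) (ε κ lam : ℝ) (S₀ : Finset ℤ) (β : Fin r → ℤ)
    (a : ℤ × (Fin r → ℤ) → ℂ) (𝒜 : Finset (Finset ℕ)), 1 ≤ M → 1 ≤ M' → 2 * L ≤ M' → 0 < κ →
    0 < lam → 𝒜.Nonempty →
    (∀ n ∈ S₀, k₀ ≤ n ^ 2 ∧ 2 * (n ^ 2 - k₀ + r * (L : ℤ) ^ 2) ≤ M) →
    (∀ A ∈ 𝒜, ∀ l, phi ε A l ^ 2 ≤ 1) →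
    (∀ A ∈ 𝒜, ∀ A' ∈ 𝒜, A ≠ A' → ∀ l, phi ε A l * phi ε A' l = phi ε (symmDiff A A') l) →
    (∀ n ∈ S₀, κ * (𝒜.card : ℝ) ^ 2 ≤ (∑ A ∈ 𝒜, phi ε A (n ^ 2)) ^ 2) →
    (∀ t x, ∑ A ∈ 𝒜, ∑ A' ∈ 𝒜.erase A, ‖KA r M M' k₀ ε (symmDiff A A') t x‖ ≤
      κ * (𝒜.card : ℝ) ^ 2 * M * M' ^ r * lam ^ 2 / 2 ^ (r + 3)) →
    ∑ ξ ∈ bx r S₀ β L, ‖a ξ‖ ^ 2 ≤ 1 →
    (volume {z ∈ cube r | lam < ‖FF r (bx r S₀ β L) a z.1 z.2‖}).toReal ≤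
      2 ^ (r + 3) * (2 * Real.pi) ^ (r + 1) / (κ * 𝒜.card * lam ^ 2)

/-! ## Large shifts at the top levels -/

/-- A large quadratic Weyl sum is near a rational with small denominator (no logarithm). -/
def S_wc : Prop :=
  ∃ (C : ℝ) (κ : ℕ), 0 < C ∧ ∀ (n₀ : ℤ) (N₀ : ℕ) (η τ : ℝ), 0 < η → η ≤ 1 →
    C / η ^ κ ≤ N₀ → η * N₀ ≤ ‖∑ n ∈ range N₀, ee (((n₀ : ℝ) + n) ^ 2 * τ)‖ →
    ∃ (q : ℕ) (a : ℤ), 1 ≤ q ∧ (q : ℝ) ≤ C / η ^ κ ∧ |τ - a / q| ≤ C / (η ^ κ * (N₀ : ℝ) ^ 2)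

/-- The crude bound for large shifts. -/
def S_crude : Prop :=
  ∀ r : ℕ, ∃ (C : ℝ) (κ : ℕ), 0 < C ∧ ∀ (N Lam : ℝ) (n₀ : ℤ) (N₀ L K : ℕ) (β : Fin r → ℤ)
    (a : ℤ × (Fin r → ℤ) → ℂ), 1 ≤ N → 1 ≤ Lam → C * Lam ^ κ ≤ N → (N₀ : ℝ) ≤ 2 * N →
    (L : ℝ) ≤ N → 1 ≤ K → (K : ℝ) ≤ N ^ 2 →
    (∀ n ∈ Finset.Ico n₀ (n₀ + N₀), ∀ n' ∈ Finset.Ico n₀ (n₀ + N₀), n ≠ n' →
      (K : ℤ) ≤ |n ^ 2 - n' ^ 2|) →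
    ∑ ξ ∈ bx r (Finset.Ico n₀ (n₀ + N₀)) β L, ‖a ξ‖ ^ 2 ≤ 1 →
    (volume {z ∈ cube r | N ^ (((r : ℝ) + 1) / 2) / Lam <
      ‖FF r (bx r (Finset.Ico n₀ (n₀ + N₀)) β L) a z.1 z.2‖}).toReal ≤
      C * Lam ^ κ / (N ^ (r + 1) * K)

/-! ## Level sets and the main theorem -/

/-- The frequencies of `J_{b,N}`, `r₀ = 1`, `r₁ = r`. -/
noncomputable def box (r : ℕ) (b : Fin (r + 1) → ℝ) (N : ℝ) : Finset (ℤ × (Fin r → ℤ)) :=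
  Finset.Icc ⌈b 0⌉ ⌊b 0 + N⌋ ×ˢ
    Fintype.piFinset (fun l : Fin r => Finset.Icc ⌈b l.succ⌉ ⌊b l.succ + N⌋)

/-- Middle levels, with a logarithm of `N`. -/
def S_LSmid : Prop :=
  ∀ r : ℕ, 1 ≤ r → ∃ (C A : ℝ), 0 < C ∧ 0 < A ∧ ∀ (b : Fin (r + 1) → ℝ) (N lam : ℝ)
    (a : ℤ × (Fin r → ℤ) → ℂ), 1 < N →
    A * ((|b 0| + N) * N) ^ (((r : ℝ) + 1) / 8) * (1 + Real.log N) ≤ lam →
    ∑ ξ ∈ box r b N, ‖a ξ‖ ^ 2 ≤ 1 →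
    (volume {z ∈ cube r | lam < ‖FF r (box r b N) a z.1 z.2‖}).toReal ≤
      C * (1 + Real.log N) ^ 2 * lam ^ (-(2 + 2 / ((r : ℝ) + 1)))

/-- Top levels, bounded ratio of the shift and of `N`. -/
def S_LStop : Prop :=
  ∀ r : ℕ, 1 ≤ r → ∃ (C c₁ : ℝ) (κ : ℕ), 0 < C ∧ 0 < c₁ ∧ ∀ (b : Fin (r + 1) → ℝ) (N lam : ℝ)
    (a : ℤ × (Fin r → ℤ) → ℂ), C ≤ N → 0 < lam →
    N ^ (((r : ℝ) + 1) / 2) / lam ≤ N ^ c₁ → (|b 0| + N) / N ≤ N ^ c₁ →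
    ∑ ξ ∈ box r b N, ‖a ξ‖ ^ 2 ≤ 1 →
    (volume {z ∈ cube r | lam < ‖FF r (box r b N) a z.1 z.2‖}).toReal ≤
      C * (1 + |Real.log (N ^ (((r : ℝ) + 1) / 2) / lam)| + Real.log ((|b 0| + N) / N)) ^ κ *
        lam ^ (-(2 + 2 / ((r : ℝ) + 1)))

/-- The level set theorem. -/
def S_LS : Prop :=
  ∀ r : ℕ, 1 ≤ r → ∃ (C A : ℝ) (κ : ℕ), 0 < C ∧ 0 < A ∧ ∀ (b : Fin (r + 1) → ℝ) (N lam : ℝ)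
    (a : ℤ × (Fin r → ℤ) → ℂ), 1 < N →
    A * ((|b 0| + N) * N) ^ (((r : ℝ) + 1) / 8) * (1 + Real.log N) ≤ lam →
    ∑ ξ ∈ box r b N, ‖a ξ‖ ^ 2 ≤ 1 →
    (volume {z ∈ cube r | lam < ‖FF r (box r b N) a z.1 z.2‖}).toReal ≤
      C * (1 + |Real.log (N ^ (((r : ℝ) + 1) / 2) / lam)|) ^ κ *
        lam ^ (-(2 + 2 / ((r : ℝ) + 1)))

/-- The estimate for the large values, in the full range of exponents. -/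
def S_Lp : Prop :=
  ∀ (r : ℕ) (p : ℝ), 1 ≤ r → 2 + 2 / ((r : ℝ) + 1) < p → ∃ (C A : ℝ), 0 < C ∧ 0 < A ∧
    ∀ (b : Fin (r + 1) → ℝ) (N : ℝ) (a : ℤ × (Fin r → ℤ) → ℂ), 1 < N →
      (∫ z in {z ∈ cube r | A * ((|b 0| + N) * N) ^ (((r : ℝ) + 1) / 8) * (1 + Real.log N) *
          Real.sqrt (∑ ξ ∈ box r b N, ‖a ξ‖ ^ 2) < ‖FF r (box r b N) a z.1 z.2‖},
        ‖FF r (box r b N) a z.1 z.2‖ ^ p) ^ (1 / p) ≤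
      C * N ^ (((r : ℝ) + 1) / 2 - ((r : ℝ) + 2) / p) *
        Real.sqrt (∑ ξ ∈ box r b N, ‖a ξ‖ ^ 2)

end Pool.Agent.Helper64.AS
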