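import Pool.Agent.Helper64.AS.Defs

/-!
# Anisotropic Strichartz estimates: the statements uniform in the shift
-/

set_option autoImplicit false

open Finset MeasureTheory

namespace Pool.Agent.Helper64.AS

/-- Top levels, all shifts. -/
def S_LSall : Prop :=
  ∀ r : ℕ, 1 ≤ r → ∃ (C c : ℝ) (κ : ℕ), 0 < C ∧ 0 < c ∧ ∀ (b : Fin (r + 1) → ℝ) (N lam : ℝ)
    (a : ℤ × (Fin r → ℤ) → ℂ), 1 < N →
    N ^ (((r : ℝ) + 1) / 2 - c) ≤ lam →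
    ∑ ξ ∈ box r b N, ‖a ξ‖ ^ 2 ≤ 1 →
    (volume {z ∈ cube r | lam < ‖FF r (box r b N) a z.1 z.2‖}).toReal ≤
      C * (1 + |Real.log (N ^ (((r : ℝ) + 1) / 2) / lam)|) ^ κ *
        lam ^ (-(2 + 2 / ((r : ℝ) + 1)))

/-- The estimate for the large values, in the full range of exponents, for all shifts. -/
def S_Lpall : Prop :=
  ∀ (r : ℕ) (p : ℝ), 1 ≤ r → 2 + 2 / ((r : ℝ) + 1) < p → ∃ (C A c : ℝ), 0 < C ∧ 0 < A ∧ 0 < c ∧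
    ∀ (b : Fin (r + 1) → ℝ) (N : ℝ) (a : ℤ × (Fin r → ℤ) → ℂ), 1 < N →
      (∫ z in {z ∈ cube r | min (A * ((|b 0| + N) * N) ^ (((r : ℝ) + 1) / 8) * (1 + Real.log N))
            (N ^ (((r : ℝ) + 1) / 2 - c)) *
          Real.sqrt (∑ ξ ∈ box r b N, ‖a ξ‖ ^ 2) < ‖FF r (box r b N) a z.1 z.2‖},
        ‖FF r (box r b N) a z.1 z.2‖ ^ p) ^ (1 / p) ≤
      C * N ^ (((r : ℝ) + 1) / 2 - ((r : ℝ) + 2) / p) *
        Real.sqrt (∑ ξ ∈ box r b N, ‖a ξ‖ ^ 2)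

end Pool.Agent.Helper64.AS
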