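import Pool.Agent.Helper64.AS.Defs

/-!
# Anisotropic Strichartz: the kernel bound for the middle levels
-/

set_option autoImplicit false

open Finset

namespace Pool.Agent.Helper64.AS.Mid

open Pool.Agent.Helper64.AS

lemma pair_inj {q q' p p' : ℕ} (hq : q.Prime) (_ : q'.Prime) (hp : p.Prime) (hp' : p'.Prime)
    (h1 : q < q') (h2 : p < p') (h : q * q' = p * p') : q = p ∧ q' = p' := by
  have h3 : q ∣ p * p' := by
    rw [← h]
    exact Dvd.intro _ rfl
  rcases (Nat.Prime.dvd_mul hq).1 h3 with h4 | h4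
  · have h5 : q = p := (Nat.prime_dvd_prime_iff_eq hq hp).1 h4
    subst h5
    exact ⟨rfl, Nat.eq_of_mul_eq_mul_left hq.pos h⟩
  · have h5 : q = p' := (Nat.prime_dvd_prime_iff_eq hq hp').1 h4
    subst h5
    have h6 : q' = p := by
      rw [mul_comm p q] at h
      exact Nat.eq_of_mul_eq_mul_left hq.pos h
    omega

/-- Comparison of sums along an injection. -/
lemma sum_inj_le {α β : Type*} [DecidableEq β] (S : Finset α) (T : Finset β) (Φ : α → β)
    (f : β → ℝ) (hf : ∀ y ∈ T, 0 ≤ f y) (hinj : Set.InjOn Φ S) (hmem : ∀ x ∈ S, Φ x ∈ T) :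
    ∑ x ∈ S, f (Φ x) ≤ ∑ y ∈ T, f y := by
  rw [← Finset.sum_image hinj]
  refine Finset.sum_le_sum_of_subset_of_nonneg ?_ (fun y hy _ => hf y hy)
  intro y hy
  obtain ⟨x, hx, rfl⟩ := Finset.mem_image.1 hy
  exact hmem x hx

lemma TT_nonneg (M d : ℕ) (t : ℝ) : 0 ≤ TT M d t := by
  unfold TT fej
  exact Finset.sum_nonneg fun a _ => by positivity

lemma KA_le (hKA : S_KA) (r M M' X : ℕ) (hr : 1 ≤ r) (k₀ : ℤ) (t : ℝ) (x : Fin r → ℝ)
    (hM : 1 ≤ M) (hM' : 1 ≤ M') (hX : 2 ≤ X) (hM'X : M' ≤ X ^ 2) (q q' : ℕ) (hq : q.Prime)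
    (hq' : q'.Prime) (hne : q' ≠ q) (h1 : X < q) (h2 : q ≤ 4 * X) (h3 : X < q') (h4 : q' ≤ 4 * X) :
    ‖KA r M M' k₀ 0 {q, q'} t x‖ ≤
      4 * (M * (20 * M') ^ r * (4 * X) ^ (r - 1)) * TT M (q * q') t := by
  have hA : ∀ p ∈ ({q, q'} : Finset ℕ), p.Prime ∧ p ≠ 2 := by
    intro p hp
    rw [mem_insert, mem_singleton] at hp
    rcases hp with rfl | rfl
    · exact ⟨hq, by omega⟩
    · exact ⟨hq', by omega⟩
  have h := hKA r M M' k₀ 0 {q, q'} t x hM hM' (Or.inl rfl) hA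
  refine h.trans ?_
  rw [Finset.sum_eq_single ({q, q'} : Finset ℕ)]
  · rw [Finset.sdiff_self, Finset.prod_empty, one_mul, Finset.prod_pair hne.symm,
      Finset.prod_pair hne.symm]
    have hd : (X : ℝ) ^ 2 ≤ (q * q' : ℕ) := by
      have : X ^ 2 ≤ q * q' := by
        rw [pow_two]
        exact Nat.mul_le_mul h1.le h3.le
      exact_mod_cast this
    have hd2 : ((q * q' : ℕ) : ℝ) ≤ (4 * X) ^ 2 := by
      have : q * q' ≤ (4 * X) ^ 2 := by
        rw [pow_two]
        exact Nat.mul_le_mul h2 h4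
      exact_mod_cast this
    set d : ℝ := ((q * q' : ℕ) : ℝ) with hdd
    have hX0 : (2 : ℝ) ≤ X := by exact_mod_cast hX
    have hd0 : 0 < d := lt_of_lt_of_le (by positivity) hd
    have hs0 : 0 < Real.sqrt d := Real.sqrt_pos.2 hd0
    have hs1 : Real.sqrt d ≤ 4 * X := by
      rw [Real.sqrt_le_left (by positivity)]
      exact hd2
    have hM'd : (M' : ℝ) ≤ d := by
      refine le_trans ?_ hd
      exact_mod_cast hM'X
    have hff : ff r M' (q * q') ≤ (20 * M') ^ r * (4 * X) ^ (r - 1) := by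
      unfold ff
      rw [← hdd]
      have e1 : 10 * (M' : ℝ) * (M' + d) / Real.sqrt d ≤ 20 * M' * Real.sqrt d := by
        rw [div_le_iff₀ hs0, mul_assoc (20 * (M' : ℝ)), Real.mul_self_sqrt hd0.le]
        have : (0 : ℝ) ≤ M' := by positivity
        nlinarith
      have e2 : (10 * (M' : ℝ) * (M' + d) / Real.sqrt d) ^ r ≤ (20 * M' * Real.sqrt d) ^ r :=
        pow_le_pow_left₀ (by positivity) e1 _
      rw [div_le_iff₀ hs0]
      refine e2.trans ?_
      rw [mul_pow, mul_assoc]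
      refine mul_le_mul_of_nonneg_left ?_ (by positivity)
      obtain ⟨k, rfl⟩ : ∃ k, r = k + 1 := ⟨r - 1, by omega⟩
      rw [Nat.add_sub_cancel, pow_succ]
      exact mul_le_mul_of_nonneg_right (pow_le_pow_left₀ hs0.le hs1 _) hs0.le
    have hp1 : ∀ p : ℕ, 1 ≤ p → 1 + 1 / Real.sqrt p ≤ 2 := by
      intro p hp
      have : 1 ≤ Real.sqrt (p : ℝ) := by
        rw [Real.one_le_sqrt]
        exact_mod_cast hp
      have : 1 / Real.sqrt (p : ℝ) ≤ 1 := by
        rw [div_le_one (by linarith)]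
        exact this
      linarith
    have g1 := hp1 q hq.one_le
    have g2 := hp1 q' hq'.one_le
    have g3 : (1 + 1 / Real.sqrt q) * (1 + 1 / Real.sqrt q') ≤ 2 * 2 :=
      mul_le_mul g1 g2 (by positivity) (by norm_num)
    have hT := TT_nonneg M (q * q') t
    have hf0 : 0 ≤ ff r M' (q * q') := by
      unfold ff
      positivity
    calc (1 + 1 / Real.sqrt q) * (1 + 1 / Real.sqrt q') *
          (M * ff r M' (q * q') * TT M (q * q') t)
        ≤ (2 * 2) * (M * ff r M' (q * q') * TT M (q * q') t) :=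
          mul_le_mul_of_nonneg_right g3 (by positivity)
      _ ≤ (2 * 2) * (M * ((20 * M') ^ r * (4 * X) ^ (r - 1)) * TT M (q * q') t) := by
          gcongr
      _ = _ := by ring
  · intro s hs hne'
    rw [Finset.mem_powerset] at hs
    have : (∏ p ∈ ({q, q'} : Finset ℕ) \ s, (0 : ℝ) / p) = 0 := by
      obtain ⟨p, hp, hps⟩ : ∃ p ∈ ({q, q'} : Finset ℕ), p ∉ s := by
        by_contra hcon
        push Not at hcon
        exact hne' (Finset.Subset.antisymm hs hcon)
      refine Finset.prod_eq_zero (i := p) ?_ (by simp)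
      rw [Finset.mem_sdiff]
      exact ⟨hp, hps⟩
    rw [this]
    ring
  · intro hn
    exact absurd (Finset.mem_powerset_self _) hn

end Pool.Agent.Helper64.AS.Mid

namespace Pool.Agent.Helper64.AS

open Mid

theorem mid (hKA : S_KA) (hT : S_T) : S_mid := by
  intro r hr
  refine ⟨4 * 20 ^ r * 4 ^ (r - 1) * 5200, by positivity, ?_⟩
  intro M M' X k₀ Q t x hM hM' hX hMX hM'X hQ
  have hX0 : (2 : ℝ) ≤ X := by exact_mod_cast hX
  set c : ℝ := 4 * (M * (20 * M') ^ r * (4 * X) ^ (r - 1)) with hc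
  have hc0 : 0 ≤ c := by positivity
  have h1 : ∑ q ∈ Q, ∑ q' ∈ Q.erase q, ‖KA r M M' k₀ 0 {q, q'} t x‖ ≤
      ∑ q ∈ Q, ∑ q' ∈ Q.erase q, c * TT M (q * q') t := by
    refine Finset.sum_le_sum fun q hq => Finset.sum_le_sum fun q' hq' => ?_
    rw [Finset.mem_erase] at hq'
    obtain ⟨a1, a2, a3⟩ := hQ q hq
    obtain ⟨b1, b2, b3⟩ := hQ q' hq'.2
    exact KA_le hKA r M M' X hr k₀ t x hM hM' hX hM'X q q' a1 b1 hq'.1 a2 a3 b2 b3
  refine h1.trans ?_
  have hTT : ∑ d ∈ Icc 1 (16 * X ^ 2), TT M d t ≤ 2600 * (X : ℝ) ^ 4 := by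
    have h := hT M 1 (16 * X ^ 2) (Icc 1 (16 * X ^ 2)) t hM le_rfl
      (fun v hv => Finset.mem_Icc.1 hv)
    simp only [one_mul] at h
    refine h.trans ?_
    push_cast
    have : (M : ℝ) ≤ X ^ 4 := by exact_mod_cast hMX
    nlinarith [pow_pos (show (0 : ℝ) < X by linarith) 4]
  have h2 : ∑ q ∈ Q, ∑ q' ∈ Q.erase q, TT M (q * q') t ≤ 5200 * (X : ℝ) ^ 4 := by
    have e1 : ∑ q ∈ Q, ∑ q' ∈ Q.erase q, TT M (q * q') t =
        ∑ y ∈ (Q ×ˢ Q).filter (fun y => y.1 < y.2), TT M (y.1 * y.2) t +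
        ∑ y ∈ (Q ×ˢ Q).filter (fun y => y.2 < y.1), TT M (y.1 * y.2) t := by
      rw [← Finset.sum_union]
      · rw [← Finset.filter_or]
        rw [Finset.sum_filter, Finset.sum_product]
        refine Finset.sum_congr rfl fun q hq => ?_
        rw [← Finset.sum_filter]
        refine Finset.sum_congr ?_ fun _ _ => rfl
        ext q'
        rw [Finset.mem_erase, Finset.mem_filter]
        constructor
        · rintro ⟨h3, h4⟩
          exact ⟨h4, by simp only; omega⟩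
        · rintro ⟨h3, h4⟩
          exact ⟨by simp only at h4; omega, h3⟩
      · rw [Finset.disjoint_left]
        intro y hy hy'
        have := (Finset.mem_filter.1 hy).2
        have := (Finset.mem_filter.1 hy').2
        omega
    have e2 : ∑ y ∈ (Q ×ˢ Q).filter (fun y => y.1 < y.2), TT M (y.1 * y.2) t ≤
        ∑ d ∈ Icc 1 (16 * X ^ 2), TT M d t := by
      refine sum_inj_le ((Q ×ˢ Q).filter (fun y => y.1 < y.2)) (Icc 1 (16 * X ^ 2))
        (fun y : ℕ × ℕ => y.1 * y.2) (fun d => TT M d t) (fun d _ => TT_nonneg M d t) ?_ ?_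
      · rintro ⟨q, q'⟩ hy ⟨p, p'⟩ hy' h
        rw [Finset.mem_coe, Finset.mem_filter, Finset.mem_product] at hy hy'
        simp only at hy hy' h
        obtain ⟨e, e'⟩ := pair_inj (hQ q hy.1.1).1 (hQ q' hy.1.2).1 (hQ p hy'.1.1).1
          (hQ p' hy'.1.2).1 hy.2 hy'.2 h
        rw [e, e']
      · rintro ⟨q, q'⟩ hy
        rw [Finset.mem_filter, Finset.mem_product] at hy
        simp only at hy
        rw [Finset.mem_Icc]
        have a1 := hQ q hy.1.1
        have a2 := hQ q' hy.1.2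
        constructor
        · exact Nat.mul_pos a1.1.pos a2.1.pos
        · calc q * q' ≤ (4 * X) * (4 * X) := Nat.mul_le_mul a1.2.2 a2.2.2
            _ = 16 * X ^ 2 := by ring
    have e3 : ∑ y ∈ (Q ×ˢ Q).filter (fun y => y.2 < y.1), TT M (y.1 * y.2) t =
        ∑ y ∈ (Q ×ˢ Q).filter (fun y => y.1 < y.2), TT M (y.1 * y.2) t := by
      refine Finset.sum_nbij' (fun y => (y.2, y.1)) (fun y => (y.2, y.1)) ?_ ?_ ?_ ?_ ?_
      · intro y hy
        simp only [Finset.mem_filter, Finset.mem_product] at hy ⊢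
        exact ⟨⟨hy.1.2, hy.1.1⟩, hy.2⟩
      · intro y hy
        simp only [Finset.mem_filter, Finset.mem_product] at hy ⊢
        exact ⟨⟨hy.1.2, hy.1.1⟩, hy.2⟩
      · intro y _
        rfl
      · intro y _
        rfl
      · intro y _
        simp only
        rw [mul_comm]
    rw [e1, e3]
    linarith
  calc ∑ q ∈ Q, ∑ q' ∈ Q.erase q, c * TT M (q * q') t
      = c * ∑ q ∈ Q, ∑ q' ∈ Q.erase q, TT M (q * q') t := by
        rw [Finset.mul_sum]
        refine Finset.sum_congr rfl fun q _ => ?_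
        rw [Finset.mul_sum]
    _ ≤ c * (5200 * (X : ℝ) ^ 4) := mul_le_mul_of_nonneg_left h2 hc0
    _ = 4 * 20 ^ r * 4 ^ (r - 1) * 5200 * M * M' ^ r * (X ^ (r - 1) * X ^ 4) := by
        rw [hc, mul_pow, mul_pow]
        ring
    _ = 4 * 20 ^ r * 4 ^ (r - 1) * 5200 * M * M' ^ r * X ^ (r + 3) := by
        rw [← pow_add, show r - 1 + 4 = r + 3 by omega]

end Pool.Agent.Helper64.AS
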