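import Pool.Agent.Helper64.AS.Defs

/-!
# Anisotropic Strichartz: the kernel bound for the top levels
-/

set_option autoImplicit false

open Finset

namespace Pool.Agent.Helper64.AS.Top

open Pool.Agent.Helper64.AS

/-- The product of the elements. -/
def P (A : Finset ℕ) : ℕ := ∏ p ∈ A, p

lemma P_inj {A B : Finset ℕ} (hA : ∀ p ∈ A, p.Prime) (hB : ∀ p ∈ B, p.Prime) (h : P A = P B) :
    A = B := by
  rw [← Nat.primeFactors_prod hA, ← Nat.primeFactors_prod hB]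
  unfold P at h
  rw [h]

lemma P_pos {A : Finset ℕ} (hA : ∀ p ∈ A, p.Prime) : 1 ≤ P A :=
  Nat.one_le_iff_ne_zero.2 (Finset.prod_ne_zero_iff.2 fun p hp => (hA p hp).ne_zero)

lemma P_union {A B : Finset ℕ} (h : Disjoint A B) : P (A ∪ B) = P A * P B :=
  Finset.prod_union h

lemma le_P {A : Finset ℕ} (hA : ∀ p ∈ A, p.Prime) {p : ℕ} (hp : p ∈ A) : p ≤ P A :=
  Nat.le_of_dvd (P_pos hA) (Finset.dvd_prod_of_mem _ hp)

/-- Comparison of sums along an injection. -/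
lemma sum_inj_le {α β : Type*} [DecidableEq β] (S : Finset α) (T : Finset β) (Φ : α → β)
    (f : β → ℝ) (hf : ∀ y ∈ T, 0 ≤ f y) (hinj : Set.InjOn Φ S) (hmem : ∀ x ∈ S, Φ x ∈ T) :
    ∑ x ∈ S, f (Φ x) ≤ ∑ y ∈ T, f y := by
  rw [← Finset.sum_image hinj]
  refine Finset.sum_le_sum_of_subset_of_nonneg ?_ (fun y hy _ => hf y hy)
  intro y hy
  obtain ⟨x, hx, rfl⟩ := Finset.mem_image.1 hy
  exact hmem x hx

/-- Tuples `(g, u', u'', v', v'')`. -/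
abbrev Tup := ℕ × ℕ × ℕ × ℕ × ℕ

/-- Index set of triples. -/
def Om (𝒜 : Finset (Finset ℕ)) : Finset (Σ _ : Finset ℕ, Σ _ : Finset ℕ, Finset ℕ) :=
  𝒜.sigma (fun A => (𝒜.erase A).sigma (fun A' => (symmDiff A A').powerset))

/-- The tuple of a triple. -/
def Ph (ω : Σ _ : Finset ℕ, Σ _ : Finset ℕ, Finset ℕ) : Tup :=
  (P (ω.1 ∩ ω.2.1), P ((ω.1 \ ω.2.1) ∩ ω.2.2), P ((ω.1 \ ω.2.1) \ ω.2.2),
    P ((ω.2.1 \ ω.1) ∩ ω.2.2), P ((ω.2.1 \ ω.1) \ ω.2.2))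

/-- The admissible tuples. -/
noncomputable def Tu (X : ℕ) (z : ℝ) : Finset Tup :=
  (Icc 1 (4 * X) ×ˢ Icc 1 (4 * X) ×ˢ Icc 1 (4 * X) ×ˢ Icc 1 (4 * X) ×ˢ Icc 1 (4 * X)).filter
    (fun y => y.1 * (y.2.1 * y.2.2.1) ≤ 4 * X ∧ y.1 * (y.2.2.2.1 * y.2.2.2.2) ≤ 4 * X ∧
      (z < y.2.1 ∨ z < y.2.2.1 ∨ z < y.2.2.2.1 ∨ z < y.2.2.2.2))

lemma mem_Om {𝒜 : Finset (Finset ℕ)} {ω : Σ _ : Finset ℕ, Σ _ : Finset ℕ, Finset ℕ} :
    ω ∈ Om 𝒜 ↔ ω.1 ∈ 𝒜 ∧ (ω.2.1 ≠ ω.1 ∧ ω.2.1 ∈ 𝒜) ∧ ω.2.2 ⊆ symmDiff ω.1 ω.2.1 := by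
  rw [Om, Finset.mem_sigma, Finset.mem_sigma, Finset.mem_erase, Finset.mem_powerset]

section facts

variable {𝒜 : Finset (Finset ℕ)} {z : ℝ} {X : ℕ}

lemma PA_eq {A A' s : Finset ℕ} (hA : ∀ p ∈ A, p.Prime) :
    P A = P (A ∩ A') * (P ((A \ A') ∩ s) * P ((A \ A') \ s)) := by
  rw [← P_union (Finset.disjoint_sdiff_inter _ _).symm, ← P_union]
  · congr 1
    ext p
    simp only [mem_union, mem_inter, mem_sdiff]
    tauto
  · rw [Finset.disjoint_left]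
    intro p
    simp only [mem_union, mem_inter, mem_sdiff]
    tauto

lemma Ps_eq {A A' s : Finset ℕ} (hs : s ⊆ symmDiff A A') :
    P s = P ((A \ A') ∩ s) * P ((A' \ A) ∩ s) := by
  rw [← P_union]
  · congr 1
    ext p
    have h := @hs p
    simp only [Finset.mem_symmDiff] at h
    simp only [mem_union, mem_inter, mem_sdiff]
    tauto
  · rw [Finset.disjoint_left]
    intro p
    simp only [mem_inter, mem_sdiff]
    tauto

lemma PE_eq {A A' s : Finset ℕ} :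
    P (symmDiff A A' \ s) = P ((A \ A') \ s) * P ((A' \ A) \ s) := by
  rw [← P_union]
  · congr 1
    ext p
    simp only [mem_union, mem_sdiff, Finset.mem_symmDiff]
    tauto
  · rw [Finset.disjoint_left]
    intro p
    simp only [mem_sdiff]
    tauto

lemma Ph_mem (h𝒜 : ∀ A ∈ 𝒜, (∀ p ∈ A, p.Prime ∧ z < p) ∧ (∏ p ∈ A, p) ≤ 4 * X)
    (ω : Σ _ : Finset ℕ, Σ _ : Finset ℕ, Finset ℕ) (hω : ω ∈ Om 𝒜) : Ph ω ∈ Tu X z := by
  obtain ⟨A, A', s⟩ := ω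
  rw [mem_Om] at hω
  simp only at hω
  obtain ⟨hA, ⟨hne, hA'⟩, hs⟩ := hω
  have pA : ∀ p ∈ A, p.Prime := fun p hp => ((h𝒜 A hA).1 p hp).1
  have pA' : ∀ p ∈ A', p.Prime := fun p hp => ((h𝒜 A' hA').1 p hp).1
  have zA : ∀ p ∈ A, z < p := fun p hp => ((h𝒜 A hA).1 p hp).2
  have zA' : ∀ p ∈ A', z < p := fun p hp => ((h𝒜 A' hA').1 p hp).2
  have q1 : ∀ p ∈ A ∩ A', p.Prime := fun p hp => pA p (mem_inter.1 hp).1
  have q2 : ∀ p ∈ (A \ A') ∩ s, p.Prime := fun p hp => pA p (mem_sdiff.1 (mem_inter.1 hp).1).1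
  have q3 : ∀ p ∈ (A \ A') \ s, p.Prime := fun p hp => pA p (mem_sdiff.1 (mem_sdiff.1 hp).1).1
  have q4 : ∀ p ∈ (A' \ A) ∩ s, p.Prime := fun p hp => pA' p (mem_sdiff.1 (mem_inter.1 hp).1).1
  have q5 : ∀ p ∈ (A' \ A) \ s, p.Prime := fun p hp => pA' p (mem_sdiff.1 (mem_sdiff.1 hp).1).1
  have b1 : P (A ∩ A') * (P ((A \ A') ∩ s) * P ((A \ A') \ s)) ≤ 4 * X := by
    rw [← PA_eq pA]
    exact (h𝒜 A hA).2
  have b2 : P (A ∩ A') * (P ((A' \ A) ∩ s) * P ((A' \ A) \ s)) ≤ 4 * X := by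
    rw [Finset.inter_comm A A', ← PA_eq pA']
    exact (h𝒜 A' hA').2
  have p1 := P_pos q1
  have p2 := P_pos q2
  have p3 := P_pos q3
  have p4 := P_pos q4
  have p5 := P_pos q5
  have c1 : P (A ∩ A') ≤ 4 * X := le_trans (Nat.le_mul_of_pos_right _ (Nat.mul_pos p2 p3)) b1
  have c2 : P ((A \ A') ∩ s) * P ((A \ A') \ s) ≤ 4 * X :=
    le_trans (Nat.le_mul_of_pos_left _ p1) b1
  have c3 : P ((A' \ A) ∩ s) * P ((A' \ A) \ s) ≤ 4 * X :=
    le_trans (Nat.le_mul_of_pos_left _ p1) b2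
  rw [Tu, Finset.mem_filter]
  simp only [Finset.mem_product, Finset.mem_Icc, Ph]
  refine ⟨⟨⟨p1, c1⟩, ⟨p2, le_trans (Nat.le_mul_of_pos_right _ p3) c2⟩,
    ⟨p3, le_trans (Nat.le_mul_of_pos_left _ p2) c2⟩,
    ⟨p4, le_trans (Nat.le_mul_of_pos_right _ p5) c3⟩,
    ⟨p5, le_trans (Nat.le_mul_of_pos_left _ p4) c3⟩⟩, b1, b2, ?_⟩
  obtain ⟨p, hp⟩ : ∃ p, p ∈ symmDiff A A' := by
    by_contra hcon
    push Not at hcon
    apply hne
    ext p
    have := hcon p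
    rw [Finset.mem_symmDiff] at this
    tauto
  have key : ∀ (B : Finset ℕ), (∀ p ∈ B, p.Prime) → p ∈ B → z < p → z < (P B : ℝ) := by
    intro B hB hpB hz
    refine lt_of_lt_of_le hz ?_
    exact_mod_cast le_P hB hpB
  rw [Finset.mem_symmDiff] at hp
  by_cases hps : p ∈ s
  · rcases hp with hp | hp
    · left
      exact key _ q2 (by rw [mem_inter, mem_sdiff]; exact ⟨hp, hps⟩) (zA p hp.1)
    · right; right; left
      exact key _ q4 (by rw [mem_inter, mem_sdiff]; exact ⟨hp, hps⟩) (zA' p hp.1)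
  · rcases hp with hp | hp
    · right; left
      exact key _ q3 (by rw [mem_sdiff, mem_sdiff]; exact ⟨hp, hps⟩) (zA p hp.1)
    · right; right; right
      exact key _ q5 (by rw [mem_sdiff, mem_sdiff]; exact ⟨hp, hps⟩) (zA' p hp.1)

lemma Ph_inj (h𝒜 : ∀ A ∈ 𝒜, (∀ p ∈ A, p.Prime ∧ z < p) ∧ (∏ p ∈ A, p) ≤ 4 * X) :
    Set.InjOn Ph (Om 𝒜 : Set (Σ _ : Finset ℕ, Σ _ : Finset ℕ, Finset ℕ)) := by
  rintro ⟨A, A', s⟩ h1 ⟨B, B', s'⟩ h2 h
  rw [Finset.mem_coe, mem_Om] at h1 h2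
  simp only at h1 h2
  obtain ⟨hA, ⟨-, hA'⟩, hs⟩ := h1
  obtain ⟨hB, ⟨-, hB'⟩, hs'⟩ := h2
  have pA : ∀ p ∈ A, p.Prime := fun p hp => ((h𝒜 A hA).1 p hp).1
  have pA' : ∀ p ∈ A', p.Prime := fun p hp => ((h𝒜 A' hA').1 p hp).1
  have pB : ∀ p ∈ B, p.Prime := fun p hp => ((h𝒜 B hB).1 p hp).1
  have pB' : ∀ p ∈ B', p.Prime := fun p hp => ((h𝒜 B' hB').1 p hp).1
  simp only [Ph, Prod.mk.injEq] at h
  obtain ⟨e1, e2, e3, e4, e5⟩ := h
  have f1 := P_inj (fun p hp => pA p (mem_inter.1 hp).1) (fun p hp => pB p (mem_inter.1 hp).1) e1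
  have f2 := P_inj (fun p hp => pA p (mem_sdiff.1 (mem_inter.1 hp).1).1)
    (fun p hp => pB p (mem_sdiff.1 (mem_inter.1 hp).1).1) e2
  have f3 := P_inj (fun p hp => pA p (mem_sdiff.1 (mem_sdiff.1 hp).1).1)
    (fun p hp => pB p (mem_sdiff.1 (mem_sdiff.1 hp).1).1) e3
  have f4 := P_inj (fun p hp => pA' p (mem_sdiff.1 (mem_inter.1 hp).1).1)
    (fun p hp => pB' p (mem_sdiff.1 (mem_inter.1 hp).1).1) e4
  have f5 := P_inj (fun p hp => pA' p (mem_sdiff.1 (mem_sdiff.1 hp).1).1)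
    (fun p hp => pB' p (mem_sdiff.1 (mem_sdiff.1 hp).1).1) e5
  have gA : ∀ (A A' s : Finset ℕ), A = (A ∩ A') ∪ (((A \ A') ∩ s) ∪ ((A \ A') \ s)) := by
    intro A A' s
    ext p
    simp only [mem_union, mem_inter, mem_sdiff]
    tauto
  have gs : ∀ (A A' s : Finset ℕ), s ⊆ symmDiff A A' → s = ((A \ A') ∩ s) ∪ ((A' \ A) ∩ s) := by
    intro A A' s hs
    ext p
    have h := @hs p
    simp only [Finset.mem_symmDiff] at h
    simp only [mem_union, mem_inter, mem_sdiff]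
    tauto
  have r1 : A = B := by
    rw [gA A A' s, gA B B' s', f1, f2, f3]
  have r2 : A' = B' := by
    rw [gA A' A s, gA B' B s', Finset.inter_comm A' A, Finset.inter_comm B' B, f1, f4, f5]
  have r3 : s = s' := by
    rw [gs A A' s hs, gs B B' s' hs', f2, f4]
  subst r1 r2 r3
  rfl

end facts

/-! ## Elementary sums -/

/-- `n^{-3/2}` -/
noncomputable def hh (n : ℕ) : ℝ := 1 / ((n : ℝ) * Real.sqrt n)

lemma hh_nonneg (n : ℕ) : 0 ≤ hh n := by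
  unfold hh
  positivity

lemma hh_le (n : ℕ) (hn : 1 ≤ n) :
    hh (n + 1) ≤ 2 / Real.sqrt n - 2 / Real.sqrt (n + 1 : ℕ) := by
  have hn' : (0 : ℝ) < n := by exact_mod_cast hn
  set a := Real.sqrt n with ha
  set b := Real.sqrt ((n + 1 : ℕ) : ℝ) with hb
  have ha0 : 0 < a := Real.sqrt_pos.2 hn'
  have hb0 : 0 < b := Real.sqrt_pos.2 (by positivity)
  have ha2 : a ^ 2 = n := Real.sq_sqrt hn'.le
  have hb2 : b ^ 2 = n + 1 := by
    rw [hb, Real.sq_sqrt (by positivity)]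
    push_cast
    ring
  have hab : a ≤ b := Real.sqrt_le_sqrt (by push_cast; linarith)
  have h1 : hh (n + 1) = 1 / (b ^ 2 * b) := by
    unfold hh
    rw [← hb, hb2]
    push_cast
    ring
  rw [h1, div_sub_div _ _ ha0.ne' hb0.ne', div_le_div_iff₀ (by positivity) (by positivity)]
  have h2 : (b - a) * (b + a) = 1 := by nlinarith
  have h3 : 1 ≤ (b - a) * (2 * b) := by nlinarith
  have h4 : b ^ 2 * b * (2 * b - a * 2) = b ^ 2 * ((b - a) * (2 * b)) := by ring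
  have h5 : 1 * (a * b) = a * b := by ring
  rw [h5]
  have h6 : a * b ≤ b ^ 2 := by nlinarith
  have h7 : (2 * b - a * 2) * (b ^ 2 * b) = b ^ 2 * ((b - a) * (2 * b)) := by ring
  rw [h7]
  nlinarith [sq_nonneg b]

lemma sum_hh_Ioc (m K : ℕ) (hm : 1 ≤ m) : ∑ n ∈ Ioc m K, hh n ≤ 2 / Real.sqrt m := by
  rcases lt_or_ge K m with h | h
  · rw [Finset.Ioc_eq_empty (by omega), Finset.sum_empty]
    positivity
  have h1 : ∀ K, m ≤ K → ∑ n ∈ Ioc m K, hh n ≤ 2 / Real.sqrt m - 2 / Real.sqrt K := by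
    intro K hK
    induction K, hK using Nat.le_induction with
    | base => simp
    | succ K hK ih =>
      rw [Finset.sum_Ioc_succ_top hK]
      have := hh_le K (le_trans hm hK)
      linarith
  refine (h1 K h).trans ?_
  have : 0 ≤ 2 / Real.sqrt (K : ℝ) := by positivity
  linarith

lemma sum_hh (K : ℕ) : ∑ n ∈ Icc 1 K, hh n ≤ 3 := by
  rcases Nat.eq_zero_or_pos K with h | h
  · subst h
    simp
  have h1 : Icc 1 K = insert 1 (Ioc 1 K) := by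
    ext n
    simp only [mem_Icc, mem_insert, mem_Ioc]
    omega
  rw [h1, Finset.sum_insert (by simp)]
  have h2 := sum_hh_Ioc 1 K le_rfl
  have h3 : hh 1 = 1 := by
    unfold hh
    simp
  rw [h3]
  rw [Nat.cast_one, Real.sqrt_one] at h2
  linarith

lemma sum_hh_z (K : ℕ) (z : ℝ) (hz : 2 ≤ z) :
    ∑ n ∈ (Icc 1 K).filter (fun n : ℕ => z < n), hh n ≤ 3 / Real.sqrt z := by
  have hf : 1 ≤ ⌊z⌋₊ := by
    rw [Nat.one_le_floor_iff]
    linarith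
  have hz0 : 0 ≤ z := by linarith
  have h1 : ∑ n ∈ (Icc 1 K).filter (fun n : ℕ => z < n), hh n ≤ ∑ n ∈ Ioc ⌊z⌋₊ K, hh n := by
    refine Finset.sum_le_sum_of_subset_of_nonneg ?_ (fun n _ _ => hh_nonneg n)
    intro n hn
    rw [mem_filter, mem_Icc] at hn
    rw [mem_Ioc]
    exact ⟨(Nat.floor_lt hz0).2 hn.2, hn.1.2⟩
  refine h1.trans ((sum_hh_Ioc _ _ hf).trans ?_)
  have h2 : z / 2 ≤ (⌊z⌋₊ : ℝ) := by
    have := Nat.lt_floor_add_one z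
    linarith
  have h3 : Real.sqrt (z / 2) ≤ Real.sqrt (⌊z⌋₊ : ℝ) := Real.sqrt_le_sqrt h2
  have h4 : 0 < Real.sqrt (z / 2) := Real.sqrt_pos.2 (by linarith)
  have h5 : 2 / Real.sqrt (⌊z⌋₊ : ℝ) ≤ 2 / Real.sqrt (z / 2) :=
    div_le_div_of_nonneg_left (by norm_num) h4 h3
  refine h5.trans ?_
  have hzp : 0 < Real.sqrt z := Real.sqrt_pos.2 (by linarith)
  rw [div_le_div_iff₀ h4 hzp]
  rw [Real.sqrt_div hz0]
  have h6 : Real.sqrt 2 ≤ 3 / 2 := by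
    rw [Real.sqrt_le_left (by norm_num)]
    norm_num
  have h7 : 0 < Real.sqrt 2 := Real.sqrt_pos.2 (by norm_num)
  rw [mul_div_assoc', le_div_iff₀ h7]
  nlinarith

lemma sum_inv_sqrt (m : ℕ) : ∑ v ∈ Icc 1 m, 1 / Real.sqrt v ≤ 2 * Real.sqrt m := by
  induction m with
  | zero => simp
  | succ m ih =>
    rw [Finset.sum_Icc_succ_top (by omega)]
    set a := Real.sqrt (m : ℝ) with ha
    set b := Real.sqrt ((m + 1 : ℕ) : ℝ) with hb
    have ha0 : 0 ≤ a := Real.sqrt_nonneg _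
    have hb0 : 0 < b := Real.sqrt_pos.2 (by positivity)
    have ha2 : a ^ 2 = m := Real.sq_sqrt (by positivity)
    have hb2 : b ^ 2 = m + 1 := by
      rw [hb, Real.sq_sqrt (by positivity)]
      push_cast
      ring
    have hab : a ≤ b := Real.sqrt_le_sqrt (by push_cast; linarith)
    have h1 : 1 / b ≤ 2 * b - 2 * a := by
      rw [div_le_iff₀ hb0]
      nlinarith
    linarith

lemma sum_pairs (K D : ℕ) (hD : 1 ≤ D) :
    ∑ u ∈ Icc 1 K, ∑ v ∈ (Icc 1 K).filter (fun v => u * v ≤ D),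
      1 / (Real.sqrt u * Real.sqrt v) ≤ 2 * Real.sqrt D * (1 + Real.log D) := by
  have hD' : (1 : ℝ) ≤ D := by exact_mod_cast hD
  have h1 : ∀ u ∈ Icc 1 K, ∑ v ∈ (Icc 1 K).filter (fun v => u * v ≤ D),
      1 / (Real.sqrt u * Real.sqrt v) ≤ if u ≤ D then 2 * Real.sqrt D * (1 / (u : ℝ)) else 0 := by
    intro u hu
    rw [mem_Icc] at hu
    have hu' : (0 : ℝ) < u := by exact_mod_cast hu.1
    split_ifs with h
    · have h2 : ∑ v ∈ (Icc 1 K).filter (fun v => u * v ≤ D), 1 / (Real.sqrt u * Real.sqrt v) ≤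
          ∑ v ∈ Icc 1 (D / u), 1 / (Real.sqrt u * Real.sqrt v) := by
        refine Finset.sum_le_sum_of_subset_of_nonneg ?_ (fun v _ _ => by positivity)
        intro v hv
        rw [mem_filter, mem_Icc] at hv
        rw [mem_Icc]
        refine ⟨hv.1.1, ?_⟩
        rw [Nat.le_div_iff_mul_le hu.1]
        linarith [hv.2, mul_comm u v]
      refine h2.trans ?_
      have h3 : ∑ v ∈ Icc 1 (D / u), 1 / (Real.sqrt u * Real.sqrt v) =
          1 / Real.sqrt u * ∑ v ∈ Icc 1 (D / u), 1 / Real.sqrt v := by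
        rw [Finset.mul_sum]
        refine Finset.sum_congr rfl fun v _ => ?_
        rw [div_mul_div_comm, one_mul]
      rw [h3]
      have h4 := sum_inv_sqrt (D / u)
      have h5 : Real.sqrt ((D / u : ℕ) : ℝ) ≤ Real.sqrt D / Real.sqrt u := by
        rw [← Real.sqrt_div (by positivity)]
        refine Real.sqrt_le_sqrt ?_
        exact Nat.cast_div_le
      have h6 : 0 < Real.sqrt (u : ℝ) := Real.sqrt_pos.2 hu'
      calc 1 / Real.sqrt u * ∑ v ∈ Icc 1 (D / u), 1 / Real.sqrt v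
          ≤ 1 / Real.sqrt u * (2 * (Real.sqrt D / Real.sqrt u)) := by
            refine mul_le_mul_of_nonneg_left ?_ (by positivity)
            linarith
        _ = 2 * Real.sqrt D * (1 / (Real.sqrt u * Real.sqrt u)) := by
            field_simp
        _ = 2 * Real.sqrt D * (1 / (u : ℝ)) := by
            rw [Real.mul_self_sqrt hu'.le]
    · rw [Finset.sum_eq_zero]
      intro v hv
      rw [mem_filter, mem_Icc] at hv
      exfalso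
      apply h
      exact le_trans (Nat.le_mul_of_pos_right _ (by omega)) hv.2
  refine (Finset.sum_le_sum h1).trans ?_
  have h2 : ∑ u ∈ Icc 1 K, (if u ≤ D then 2 * Real.sqrt D * (1 / (u : ℝ)) else 0) ≤
      ∑ u ∈ Icc 1 D, 2 * Real.sqrt D * (1 / (u : ℝ)) := by
    rw [← Finset.sum_filter]
    refine Finset.sum_le_sum_of_subset_of_nonneg ?_ (fun v _ _ => by positivity)
    intro v hv
    rw [mem_filter, mem_Icc] at hv
    rw [mem_Icc]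
    exact ⟨hv.1.1, hv.2⟩
  refine h2.trans ?_
  rw [← Finset.mul_sum]
  refine mul_le_mul_of_nonneg_left ?_ (by positivity)
  have h3 := harmonic_le_one_add_log D
  rw [harmonic_eq_sum_Icc] at h3
  push_cast at h3
  simpa [one_div] using h3

lemma sum_inv_sq (K : ℕ) : ∑ n ∈ Icc 1 K, 1 / (n : ℝ) ^ 2 ≤ 2 := by
  have h1 : ∀ K : ℕ, 1 ≤ K → ∑ n ∈ Icc 1 K, 1 / (n : ℝ) ^ 2 ≤ 2 - 1 / (K : ℝ) := by
    intro K hK
    induction K, hK using Nat.le_induction with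
    | base => norm_num
    | succ K hK ih =>
      rw [Finset.sum_Icc_succ_top (by omega)]
      have hK' : (0 : ℝ) < K := by exact_mod_cast hK
      have h2 : 1 / ((K + 1 : ℕ) : ℝ) ^ 2 ≤ 1 / K - 1 / ((K + 1 : ℕ) : ℝ) := by
        push_cast
        rw [div_sub_div _ _ hK'.ne' (by positivity), div_le_div_iff₀ (by positivity) (by positivity)]
        nlinarith
      linarith
  rcases Nat.eq_zero_or_pos K with h | h
  · subst h
    simp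
  · have := h1 K h
    have h2 : (0 : ℝ) ≤ 1 / K := by positivity
    linarith

/-! ## Reduction to a sum over tuples -/

/-- The weight of a tuple. -/
noncomputable def w (r M M' : ℕ) (t : ℝ) (y : Tup) : ℝ :=
  1 / ((y.2.2.1 : ℝ) * y.2.2.2.2) *
    (M * ff r M' (y.2.1 * y.2.2.2.1) * TT M (y.2.1 * y.2.2.2.1) t)

lemma ff_nonneg (r M' d : ℕ) : 0 ≤ ff r M' d := by
  unfold ff
  positivity

lemma TT_nonneg (M d : ℕ) (t : ℝ) : 0 ≤ TT M d t := by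
  unfold TT fej
  exact Finset.sum_nonneg fun a _ => by positivity

lemma w_nonneg (r M M' : ℕ) (t : ℝ) (y : Tup) : 0 ≤ w r M M' t y := by
  unfold w
  have := ff_nonneg r M' (y.2.1 * y.2.2.2.1)
  have := TT_nonneg M (y.2.1 * y.2.2.2.1) t
  positivity

lemma prod_le_eight {A A' s : Finset ℕ} (hs : s ⊆ symmDiff A A')
    (hA : ∑ p ∈ A, 1 / Real.sqrt p ≤ 1) (hA' : ∑ p ∈ A', 1 / Real.sqrt p ≤ 1) :
    ∏ p ∈ s, (1 + 1 / Real.sqrt p) ≤ 8 := by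
  have h1 : ∏ p ∈ s, (1 + 1 / Real.sqrt p) ≤ ∏ p ∈ s, Real.exp (1 / Real.sqrt p) := by
    refine Finset.prod_le_prod (fun p _ => by positivity) (fun p _ => ?_)
    rw [add_comm]
    exact Real.add_one_le_exp _
  rw [← Real.exp_sum] at h1
  have h2 : ∑ p ∈ s, 1 / Real.sqrt p ≤ 2 := by
    have h3 : ∑ p ∈ s, 1 / Real.sqrt (p : ℝ) ≤ ∑ p ∈ A ∪ A', 1 / Real.sqrt (p : ℝ) := by
      refine Finset.sum_le_sum_of_subset_of_nonneg ?_ (fun p _ _ => by positivity)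
      intro p hp
      have := hs hp
      rw [Finset.mem_symmDiff] at this
      rw [mem_union]
      tauto
    have h4 := Finset.sum_union_inter (s₁ := A) (s₂ := A') (f := fun p : ℕ => 1 / Real.sqrt (p : ℝ))
    have h5 : 0 ≤ ∑ p ∈ A ∩ A', 1 / Real.sqrt (p : ℝ) :=
      Finset.sum_nonneg fun p _ => by positivity
    linarith
  refine h1.trans ((Real.exp_le_exp.2 h2).trans ?_)
  have h3 : Real.exp 2 = Real.exp 1 * Real.exp 1 := by
    rw [← Real.exp_add]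
    norm_num
  have h4 := Real.exp_one_lt_d9
  have h5 := Real.exp_pos 1
  rw [h3]
  nlinarith

lemma total_le (hKA : S_KA) {𝒜 : Finset (Finset ℕ)} {z : ℝ} {X : ℕ}
    (h𝒜 : ∀ A ∈ 𝒜, (∀ p ∈ A, p.Prime ∧ z < p) ∧ (∏ p ∈ A, p) ≤ 4 * X ∧
      ∑ p ∈ A, 1 / Real.sqrt p ≤ 1) (hz : 2 ≤ z) (r M M' : ℕ) (hM : 1 ≤ M) (hM' : 1 ≤ M')
    (k₀ : ℤ) (t : ℝ) (x : Fin r → ℝ) :
    ∑ A ∈ 𝒜, ∑ A' ∈ 𝒜.erase A, ‖KA r M M' k₀ 1 (symmDiff A A') t x‖ ≤
      8 * ∑ y ∈ Tu X z, w r M M' t y := by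
  have h𝒜' : ∀ A ∈ 𝒜, (∀ p ∈ A, p.Prime ∧ z < p) ∧ (∏ p ∈ A, p) ≤ 4 * X :=
    fun A hA => ⟨(h𝒜 A hA).1, (h𝒜 A hA).2.1⟩
  have h1 : ∀ A ∈ 𝒜, ∀ A' ∈ 𝒜.erase A, ‖KA r M M' k₀ 1 (symmDiff A A') t x‖ ≤
      ∑ s ∈ (symmDiff A A').powerset, 8 * w r M M' t (Ph ⟨A, A', s⟩) := by
    intro A hA A' hA'
    have hA'' := (Finset.mem_erase.1 hA').2
    have hp : ∀ p ∈ symmDiff A A', p.Prime ∧ p ≠ 2 := by
      intro p hp
      have h2 : p.Prime ∧ z < p := by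
        rw [Finset.mem_symmDiff] at hp
        rcases hp with hp | hp
        · exact (h𝒜 A hA).1 p hp.1
        · exact (h𝒜 A' hA'').1 p hp.1
      refine ⟨h2.1, ?_⟩
      rintro rfl
      have := h2.2
      push_cast at this
      linarith
    refine (hKA r M M' k₀ 1 (symmDiff A A') t x hM hM' (Or.inr rfl) hp).trans ?_
    refine Finset.sum_le_sum fun s hs => ?_
    rw [Finset.mem_powerset] at hs
    have e1 : (∏ p ∈ symmDiff A A' \ s, (1 : ℝ) / p) =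
        1 / ((P ((A \ A') \ s) : ℝ) * P ((A' \ A) \ s)) := by
      rw [Finset.prod_div_distrib, Finset.prod_const_one]
      congr 1
      have := PE_eq (A := A) (A' := A') (s := s)
      rw [← Nat.cast_mul, ← this]
      unfold P
      push_cast
      rfl
    have e2 : (∏ p ∈ s, p) = P ((A \ A') ∩ s) * P ((A' \ A) ∩ s) := Ps_eq hs
    have e3 := prod_le_eight hs (h𝒜 A hA).2.2 (h𝒜 A' hA'').2.2
    rw [e1, e2]
    have e4 : 0 ≤ (M : ℝ) * ff r M' (P ((A \ A') ∩ s) * P ((A' \ A) ∩ s)) *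
        TT M (P ((A \ A') ∩ s) * P ((A' \ A) ∩ s)) t := by
      have := ff_nonneg r M' (P ((A \ A') ∩ s) * P ((A' \ A) ∩ s))
      have := TT_nonneg M (P ((A \ A') ∩ s) * P ((A' \ A) ∩ s)) t
      positivity
    have e5 : 0 ≤ 1 / ((P ((A \ A') \ s) : ℝ) * P ((A' \ A) \ s)) := by positivity
    calc 1 / ((P ((A \ A') \ s) : ℝ) * P ((A' \ A) \ s)) * (∏ p ∈ s, (1 + 1 / Real.sqrt p)) *
          (M * ff r M' (P ((A \ A') ∩ s) * P ((A' \ A) ∩ s)) *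
            TT M (P ((A \ A') ∩ s) * P ((A' \ A) ∩ s)) t)
        ≤ 1 / ((P ((A \ A') \ s) : ℝ) * P ((A' \ A) \ s)) * 8 *
          (M * ff r M' (P ((A \ A') ∩ s) * P ((A' \ A) ∩ s)) *
            TT M (P ((A \ A') ∩ s) * P ((A' \ A) ∩ s)) t) := by
          refine mul_le_mul_of_nonneg_right ?_ e4
          exact mul_le_mul_of_nonneg_left e3 e5
      _ = 8 * w r M M' t (Ph ⟨A, A', s⟩) := by
          unfold w Ph
          simp only
          ring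
  have h2 : ∑ A ∈ 𝒜, ∑ A' ∈ 𝒜.erase A, ‖KA r M M' k₀ 1 (symmDiff A A') t x‖ ≤
      ∑ ω ∈ Om 𝒜, 8 * w r M M' t (Ph ω) := by
    rw [Om, Finset.sum_sigma]
    refine Finset.sum_le_sum fun A hA => ?_
    rw [Finset.sum_sigma]
    exact Finset.sum_le_sum fun A' hA' => h1 A hA A' hA'
  refine h2.trans ?_
  rw [← Finset.mul_sum]
  refine mul_le_mul_of_nonneg_left ?_ (by norm_num)
  exact sum_inj_le _ _ Ph (w r M M' t) (fun y _ => w_nonneg r M M' t y) (Ph_inj h𝒜')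
    (fun ω hω => Ph_mem h𝒜' ω hω)

/-! ## Small denominators -/

/-- Quadruples `(u', u'', v', v'')`. -/
abbrev Qu := ℕ × ℕ × ℕ × ℕ

/-- All quadruples. -/
abbrev I4 (X : ℕ) : Finset Qu :=
  Icc 1 (4 * X) ×ˢ Icc 1 (4 * X) ×ˢ Icc 1 (4 * X) ×ˢ Icc 1 (4 * X)

lemma sum_g (X : ℕ) (Q : Finset Qu) (G : Qu → ℝ) (hG : ∀ q, 0 ≤ G q) (S : Finset Tup)
    (hQ : ∀ q ∈ Q, 1 ≤ q.1 ∧ 1 ≤ q.2.1 ∧ 1 ≤ q.2.2.1 ∧ 1 ≤ q.2.2.2)
    (hS : ∀ y ∈ S, y.2 ∈ Q ∧ 1 ≤ y.1 ∧ y.1 * (y.2.1 * y.2.2.1) ≤ 4 * X ∧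
      y.1 * (y.2.2.2.1 * y.2.2.2.2) ≤ 4 * X) :
    ∑ y ∈ S, G y.2 ≤ ∑ q ∈ Q, G q * (4 * X / (Real.sqrt q.1 * Real.sqrt q.2.1 *
      (Real.sqrt q.2.2.1 * Real.sqrt q.2.2.2))) := by
  classical
  have h1 : ∑ y ∈ S, G y.2 = ∑ q ∈ Q, ∑ y ∈ S.filter (fun y => y.2 = q), G y.2 :=
    (Finset.sum_fiberwise_of_maps_to (fun y hy => (hS y hy).1) (fun y => G y.2)).symm
  rw [h1]
  refine Finset.sum_le_sum fun q hq => ?_
  have h2 : ∑ y ∈ S.filter (fun y => y.2 = q), G y.2 =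
      ((S.filter (fun y => y.2 = q)).card : ℝ) * G q := by
    rw [← nsmul_eq_mul, ← Finset.sum_const]
    refine Finset.sum_congr rfl fun y hy => ?_
    rw [(Finset.mem_filter.1 hy).2]
  rw [h2, mul_comm]
  refine mul_le_mul_of_nonneg_left ?_ (hG q)
  obtain ⟨c1, c2, c3, c4⟩ := hQ q hq
  have p1 : 0 < Real.sqrt (q.1 : ℝ) := Real.sqrt_pos.2 (by exact_mod_cast c1)
  have p2 : 0 < Real.sqrt (q.2.1 : ℝ) := Real.sqrt_pos.2 (by exact_mod_cast c2)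
  have p3 : 0 < Real.sqrt (q.2.2.1 : ℝ) := Real.sqrt_pos.2 (by exact_mod_cast c3)
  have p4 : 0 < Real.sqrt (q.2.2.2 : ℝ) := Real.sqrt_pos.2 (by exact_mod_cast c4)
  set Z : ℝ := Real.sqrt q.1 * Real.sqrt q.2.1 * (Real.sqrt q.2.2.1 * Real.sqrt q.2.2.2) with hZ
  have hZ0 : 0 < Z := by positivity
  have h3 : (S.filter (fun y => y.2 = q)).card ≤ (Icc 1 ⌊4 * (X : ℝ) / Z⌋₊).card := by
    refine Finset.card_le_card_of_injOn (fun y => y.1) ?_ ?_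
    · intro y hy
      rw [Finset.mem_coe, Finset.mem_filter] at hy
      obtain ⟨hy, rfl⟩ := hy
      obtain ⟨-, g1, g2, g3⟩ := hS y hy
      rw [Finset.mem_coe, Finset.mem_Icc]
      refine ⟨g1, Nat.le_floor ?_⟩
      rw [le_div_iff₀ hZ0]
      have g2' : (y.1 : ℝ) * (y.2.1 * y.2.2.1) ≤ 4 * X := by exact_mod_cast g2
      have g3' : (y.1 : ℝ) * (y.2.2.2.1 * y.2.2.2.2) ≤ 4 * X := by exact_mod_cast g3
      have h4 : ((y.1 : ℝ) * Z) ^ 2 ≤ (4 * X) ^ 2 := by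
        have h5 : ((y.1 : ℝ) * Z) ^ 2 =
            ((y.1 : ℝ) * (y.2.1 * y.2.2.1)) * ((y.1 : ℝ) * (y.2.2.2.1 * y.2.2.2.2)) := by
          rw [hZ]
          have s1 : Real.sqrt (y.2.1 : ℝ) ^ 2 = y.2.1 := Real.sq_sqrt (by positivity)
          have s2 : Real.sqrt (y.2.2.1 : ℝ) ^ 2 = y.2.2.1 := Real.sq_sqrt (by positivity)
          have s3 : Real.sqrt (y.2.2.2.1 : ℝ) ^ 2 = y.2.2.2.1 := Real.sq_sqrt (by positivity)
          have s4 : Real.sqrt (y.2.2.2.2 : ℝ) ^ 2 = y.2.2.2.2 := Real.sq_sqrt (by positivity)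
          rw [mul_pow, mul_pow, mul_pow, mul_pow, s1, s2, s3, s4]
          ring
        rw [h5, sq]
        exact mul_le_mul g2' g3' (by positivity) (by positivity)
      exact le_of_sq_le_sq h4 (by positivity)
    · intro y hy y' hy' h
      rw [Finset.mem_coe, Finset.mem_filter] at hy hy'
      exact Prod.ext h (hy.2.trans hy'.2.symm)
  rw [Nat.card_Icc, Nat.add_sub_cancel] at h3
  calc ((S.filter (fun y => y.2 = q)).card : ℝ) ≤ (⌊4 * (X : ℝ) / Z⌋₊ : ℝ) := by exact_mod_cast h3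
    _ ≤ 4 * X / Z := Nat.floor_le (by positivity)

lemma prod4 (I : Finset ℕ) (a b c d : ℕ → ℝ) :
    ∑ q ∈ I ×ˢ I ×ˢ I ×ˢ I, a q.1 * b q.2.1 * (c q.2.2.1 * d q.2.2.2) =
      (∑ u ∈ I, a u) * (∑ u ∈ I, b u) * ((∑ u ∈ I, c u) * (∑ u ∈ I, d u)) := by
  rw [Finset.sum_product]
  simp_rw [Finset.sum_product]
  simp_rw [← Finset.mul_sum, ← Finset.sum_mul]
  rw [Finset.sum_mul_sum I I a b]

lemma sumG1 (X : ℕ) (z : ℝ) (hz : 2 ≤ z) :
    ∑ q ∈ (I4 X).filter (fun q => z < q.1 ∨ z < q.2.1 ∨ z < q.2.2.1 ∨ z < q.2.2.2),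
      (hh q.1 * hh q.2.1 * (hh q.2.2.1 * hh q.2.2.2)) ≤ 324 / Real.sqrt z := by
  set I := Icc 1 (4 * X) with hI
  let k : ℕ → ℝ := fun n => if z < n then hh n else 0
  have hk : ∀ n, 0 ≤ k n := by
    intro n
    simp only [k]
    split_ifs
    · exact hh_nonneg n
    · exact le_rfl
  have hkz : ∑ n ∈ I, k n ≤ 3 / Real.sqrt z := by
    simp only [k]
    rw [← Finset.sum_filter]
    exact sum_hh_z _ _ hz
  have hH : ∑ n ∈ I, hh n ≤ 3 := sum_hh _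
  have hH0 : 0 ≤ ∑ n ∈ I, hh n := Finset.sum_nonneg fun n _ => hh_nonneg n
  have hk0 : 0 ≤ ∑ n ∈ I, k n := Finset.sum_nonneg fun n _ => hk n
  rw [Finset.sum_filter]
  have h1 : ∀ q ∈ I4 X, (if z < q.1 ∨ z < q.2.1 ∨ z < q.2.2.1 ∨ z < q.2.2.2 then
      hh q.1 * hh q.2.1 * (hh q.2.2.1 * hh q.2.2.2) else 0) ≤
      k q.1 * hh q.2.1 * (hh q.2.2.1 * hh q.2.2.2) + hh q.1 * k q.2.1 * (hh q.2.2.1 * hh q.2.2.2) +
      (hh q.1 * hh q.2.1 * (k q.2.2.1 * hh q.2.2.2) +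
        hh q.1 * hh q.2.1 * (hh q.2.2.1 * k q.2.2.2)) := by
    intro q _
    have n1 := hh_nonneg q.1
    have n2 := hh_nonneg q.2.1
    have n3 := hh_nonneg q.2.2.1
    have n4 := hh_nonneg q.2.2.2
    have m1 := hk q.1
    have m2 := hk q.2.1
    have m3 := hk q.2.2.1
    have m4 := hk q.2.2.2
    have t1 : 0 ≤ k q.1 * hh q.2.1 * (hh q.2.2.1 * hh q.2.2.2) := by positivity
    have t2 : 0 ≤ hh q.1 * k q.2.1 * (hh q.2.2.1 * hh q.2.2.2) := by positivity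
    have t3 : 0 ≤ hh q.1 * hh q.2.1 * (k q.2.2.1 * hh q.2.2.2) := by positivity
    have t4 : 0 ≤ hh q.1 * hh q.2.1 * (hh q.2.2.1 * k q.2.2.2) := by positivity
    split_ifs with h
    · rcases h with h | h | h | h
      · have : k q.1 = hh q.1 := if_pos h
        rw [this] at t1 ⊢
        linarith
      · have : k q.2.1 = hh q.2.1 := if_pos h
        rw [this] at t2 ⊢
        linarith
      · have : k q.2.2.1 = hh q.2.2.1 := if_pos h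
        rw [this] at t3 ⊢
        linarith
      · have : k q.2.2.2 = hh q.2.2.2 := if_pos h
        rw [this] at t4 ⊢
        linarith
    · linarith
  refine (Finset.sum_le_sum h1).trans ?_
  rw [Finset.sum_add_distrib, Finset.sum_add_distrib, Finset.sum_add_distrib]
  rw [show I4 X = I ×ˢ I ×ˢ I ×ˢ I from rfl]
  rw [prod4, prod4, prod4, prod4]
  set a := ∑ n ∈ I, hh n
  set b := ∑ n ∈ I, k n
  have hz0 : 0 < Real.sqrt z := Real.sqrt_pos.2 (by linarith)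
  have h2 : a ^ 3 * b ≤ 27 * (3 / Real.sqrt z) := by
    refine mul_le_mul ?_ hkz hk0 (by norm_num)
    calc a ^ 3 ≤ 3 ^ 3 := pow_le_pow_left₀ hH0 hH 3
      _ = 27 := by norm_num
  have h3 : b * a * (a * a) + a * b * (a * a) + (a * a * (b * a) + a * a * (a * b)) =
      4 * (a ^ 3 * b) := by ring
  rw [h3]
  calc 4 * (a ^ 3 * b) ≤ 4 * (27 * (3 / Real.sqrt z)) := by linarith
    _ = 324 / Real.sqrt z := by ring

lemma sumG2 (X D : ℕ) (hD : 1 ≤ D) :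
    ∑ q ∈ (I4 X).filter (fun q => q.1 * q.2.2.1 ≤ D),
      (1 / (Real.sqrt q.1 * Real.sqrt q.2.2.1) * (hh q.2.1 * hh q.2.2.2)) ≤
      18 * Real.sqrt D * (1 + Real.log D) := by
  set I := Icc 1 (4 * X) with hI
  have hH : ∑ n ∈ I, hh n ≤ 3 := sum_hh _
  have hH0 : 0 ≤ ∑ n ∈ I, hh n := Finset.sum_nonneg fun n _ => hh_nonneg n
  have h0 := sum_pairs (4 * X) D hD
  rw [← hI] at h0
  rw [Finset.sum_filter, show I4 X = I ×ˢ I ×ˢ I ×ˢ I from rfl, Finset.sum_product]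
  simp_rw [Finset.sum_product]
  have h1 : ∀ u₁ ∈ I, ∑ u₂ ∈ I, ∑ v₁ ∈ I, ∑ v₂ ∈ I, (if u₁ * v₁ ≤ D then
      1 / (Real.sqrt (u₁ : ℝ) * Real.sqrt (v₁ : ℝ)) * (hh u₂ * hh v₂) else 0) =
      (∑ v ∈ I.filter (fun v => u₁ * v ≤ D), 1 / (Real.sqrt (u₁ : ℝ) * Real.sqrt (v : ℝ))) *
        ((∑ n ∈ I, hh n) * (∑ n ∈ I, hh n)) := by
    intro u₁ _
    rw [Finset.sum_filter]
    have h2 : ∀ u₂ ∈ I, ∑ v₁ ∈ I, ∑ v₂ ∈ I, (if u₁ * v₁ ≤ D then
        1 / (Real.sqrt (u₁ : ℝ) * Real.sqrt (v₁ : ℝ)) * (hh u₂ * hh v₂) else 0) =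
        hh u₂ * ((∑ v ∈ I, if u₁ * v ≤ D then 1 / (Real.sqrt (u₁ : ℝ) * Real.sqrt (v : ℝ)) else 0) *
          ∑ n ∈ I, hh n) := by
      intro u₂ _
      rw [Finset.sum_mul_sum, Finset.mul_sum]
      refine Finset.sum_congr rfl fun v₁ _ => ?_
      rw [Finset.mul_sum]
      refine Finset.sum_congr rfl fun v₂ _ => ?_
      split_ifs
      · ring
      · ring
    rw [Finset.sum_congr rfl h2, ← Finset.sum_mul]
    ring
  rw [Finset.sum_congr rfl h1, ← Finset.sum_mul]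
  have h3 : (∑ n ∈ I, hh n) * (∑ n ∈ I, hh n) ≤ 9 := by nlinarith
  have h4 : 0 ≤ (∑ n ∈ I, hh n) * (∑ n ∈ I, hh n) := by positivity
  have hl : 0 ≤ Real.log D := Real.log_natCast_nonneg D
  calc _ ≤ (2 * Real.sqrt D * (1 + Real.log D)) * ((∑ n ∈ I, hh n) * (∑ n ∈ I, hh n)) :=
        mul_le_mul_of_nonneg_right h0 h4
    _ ≤ (2 * Real.sqrt D * (1 + Real.log D)) * 9 := mul_le_mul_of_nonneg_left h3 (by positivity)
    _ = 18 * Real.sqrt D * (1 + Real.log D) := by ring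

lemma ff_le (r M' d : ℕ) (hd : 1 ≤ d) (hr : 1 ≤ r) :
    ff r M' d ≤ (20 * M') ^ r * ((M' : ℝ) ^ r / d + Real.sqrt d ^ r / Real.sqrt d) := by
  have hd' : (1 : ℝ) ≤ d := by exact_mod_cast hd
  set s := Real.sqrt (d : ℝ) with hs
  have hs1 : 1 ≤ s := by
    rw [hs, Real.one_le_sqrt]
    exact hd'
  have hs2 : s ^ 2 = d := Real.sq_sqrt (by positivity)
  have hM : (0 : ℝ) ≤ M' := by positivity
  unfold ff
  rw [← hs]
  rcases le_total (d : ℝ) M' with h | h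
  · have h0 : 10 * (M' : ℝ) * (M' + d) ≤ (20 * M') * M' := by nlinarith
    have h1 : (10 * (M' : ℝ) * (M' + d) / s) ^ r / s ≤ ((20 * M') * M' / s) ^ r / s :=
      div_le_div_of_nonneg_right (pow_le_pow_left₀ (by positivity)
        (div_le_div_of_nonneg_right h0 (by positivity)) r) (by positivity)
    have h2 : ((20 * (M' : ℝ)) * M' / s) ^ r / s = (20 * M') ^ r * (M' ^ r / (s ^ r * s)) := by
      rw [div_pow, mul_pow]
      field_simp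
    have h3 : (d : ℝ) ≤ s ^ r * s := by
      rw [← hs2, sq]
      refine mul_le_mul_of_nonneg_right ?_ (by positivity)
      calc s = s ^ 1 := (pow_one s).symm
        _ ≤ s ^ r := pow_le_pow_right₀ hs1 hr
    have h4 : (M' : ℝ) ^ r / (s ^ r * s) ≤ M' ^ r / d := by
      gcongr
    rw [h2] at h1
    refine h1.trans ?_
    refine mul_le_mul_of_nonneg_left ?_ (by positivity)
    have h5 : 0 ≤ s ^ r / s := by positivity
    linarith
  · have h1 : (10 * (M' : ℝ) * (M' + d) / s) ^ r / s ≤ ((20 * M') * s) ^ r / s := by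
      have h2 : 10 * (M' : ℝ) * (M' + d) / s ≤ (20 * M') * s := by
        rw [div_le_iff₀ (by positivity)]
        have : (20 * (M' : ℝ)) * s * s = 20 * M' * d := by
          rw [mul_assoc, ← sq, hs2]
        rw [this]
        nlinarith
      gcongr
    have h6 : ((20 * (M' : ℝ)) * s) ^ r / s = (20 * M') ^ r * (s ^ r / s) := by
      rw [mul_pow, mul_div_assoc]
    rw [h6] at h1
    refine h1.trans ?_
    refine mul_le_mul_of_nonneg_left ?_ (by positivity)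
    have h5 : 0 ≤ (M' : ℝ) ^ r / d := by positivity
    linarith

lemma case1 (hT : S_T) (r M M' X D : ℕ) (z t : ℝ) (hr : 1 ≤ r) (hz : 2 ≤ z) (hX : 1 ≤ X)
    (hM : 16 * X ^ 2 ≤ M) (hD : 1 ≤ D) :
    ∑ y ∈ (Tu X z).filter (fun y => y.2.1 * y.2.2.2.1 ≤ D), w r M M' t y ≤
      20 * M ^ 2 * (20 * M') ^ r * ((M' : ℝ) ^ r * (1296 * X / Real.sqrt z) +
        72 * X * Real.sqrt D ^ r * (1 + Real.log D)) := by
  have hD' : (1 : ℝ) ≤ D := by exact_mod_cast hD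
  have hM1 : 1 ≤ M := le_trans (by nlinarith) hM
  set S := (Tu X z).filter (fun y => y.2.1 * y.2.2.2.1 ≤ D) with hS
  have hmem : ∀ y ∈ S, (1 ≤ y.1 ∧ 1 ≤ y.2.1 ∧ 1 ≤ y.2.2.1 ∧ 1 ≤ y.2.2.2.1 ∧ 1 ≤ y.2.2.2.2) ∧
      y.2 ∈ I4 X ∧ y.1 * (y.2.1 * y.2.2.1) ≤ 4 * X ∧ y.1 * (y.2.2.2.1 * y.2.2.2.2) ≤ 4 * X ∧
      (z < y.2.1 ∨ z < y.2.2.1 ∨ z < y.2.2.2.1 ∨ z < y.2.2.2.2) ∧ y.2.1 * y.2.2.2.1 ≤ D := by
    intro y hy
    rw [hS, Finset.mem_filter, Tu, Finset.mem_filter, Finset.mem_product] at hy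
    obtain ⟨⟨⟨h1, h2⟩, h3, h4, h5⟩, h6⟩ := hy
    have h2' := h2
    simp only [Finset.mem_product, Finset.mem_Icc] at h1 h2
    exact ⟨⟨h1.1, h2.1.1, h2.2.1.1, h2.2.2.1.1, h2.2.2.2.1⟩, h2', h3, h4, h5, h6⟩
  -- the pointwise bound
  set c : ℝ := 20 * (M : ℝ) ^ 2 * (20 * M') ^ r with hc
  have hc0 : 0 ≤ c := by positivity
  set κ : ℝ := Real.sqrt D ^ r / Real.sqrt D with hκ
  have hκ0 : 0 ≤ κ := by positivity
  let G1 : Qu → ℝ := fun q => 1 / ((q.1 : ℝ) * q.2.1 * (q.2.2.1 * q.2.2.2))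
  let G2 : Qu → ℝ := fun q => 1 / ((q.2.1 : ℝ) * q.2.2.2)
  have hpt : ∀ y ∈ S, w r M M' t y ≤ c * ((M' : ℝ) ^ r * G1 y.2 + κ * G2 y.2) := by
    intro y hy
    obtain ⟨⟨p0, p1, p2, p3, p4⟩, -, b1, b2, -, b3⟩ := hmem y hy
    have q0 : (1 : ℝ) ≤ y.1 := by exact_mod_cast p0
    have q1 : (1 : ℝ) ≤ y.2.1 := by exact_mod_cast p1
    have q2 : (1 : ℝ) ≤ y.2.2.1 := by exact_mod_cast p2
    have q3 : (1 : ℝ) ≤ y.2.2.2.1 := by exact_mod_cast p3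
    have q4 : (1 : ℝ) ≤ y.2.2.2.2 := by exact_mod_cast p4
    set d := y.2.1 * y.2.2.2.1 with hd
    have hd1 : 1 ≤ d := Nat.mul_pos p1 p3
    have hd1' : (1 : ℝ) ≤ d := by exact_mod_cast hd1
    have c1 : y.2.1 ≤ 4 * X :=
      le_trans (Nat.le_mul_of_pos_right _ p2) (le_trans (Nat.le_mul_of_pos_left _ p0) b1)
    have c2 : y.2.2.2.1 ≤ 4 * X :=
      le_trans (Nat.le_mul_of_pos_right _ p4) (le_trans (Nat.le_mul_of_pos_left _ p0) b2)
    have hdM : d ≤ M := by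
      calc d ≤ (4 * X) * (4 * X) := Nat.mul_le_mul c1 c2
        _ = 16 * X ^ 2 := by ring
        _ ≤ M := hM
    have hTT : TT M d t ≤ 20 * M := by
      have h := hT M d 1 {1} t hM1 hd1 (by simp)
      rw [Finset.sum_singleton, mul_one] at h
      have : (d : ℝ) ≤ M := by exact_mod_cast hdM
      push_cast at h
      linarith
    have hff := ff_le r M' d hd1 hr
    have hκd : Real.sqrt (d : ℝ) ^ r / Real.sqrt d ≤ κ := by
      obtain ⟨k, rfl⟩ : ∃ k, r = k + 1 := ⟨r - 1, by omega⟩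
      have s1 : 0 < Real.sqrt (d : ℝ) := Real.sqrt_pos.2 (by linarith)
      have s2 : 0 < Real.sqrt (D : ℝ) := Real.sqrt_pos.2 (by linarith)
      rw [hκ, pow_succ, mul_div_assoc, div_self s1.ne', mul_one, pow_succ, mul_div_assoc,
        div_self s2.ne', mul_one]
      refine pow_le_pow_left₀ s1.le (Real.sqrt_le_sqrt ?_) k
      exact_mod_cast b3
    have hff2 : ff r M' d ≤ (20 * M') ^ r * ((M' : ℝ) ^ r / d + κ) := by
      refine hff.trans (mul_le_mul_of_nonneg_left ?_ (by positivity))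
      linarith
    have hff0 := ff_nonneg r M' d
    have hTT0 := TT_nonneg M d t
    have h1 : M * ff r M' d * TT M d t ≤ M * ((20 * M') ^ r * ((M' : ℝ) ^ r / d + κ)) * (20 * M) := by
      gcongr
    have h2 : w r M M' t y ≤ 1 / ((y.2.2.1 : ℝ) * y.2.2.2.2) *
        (M * ((20 * M') ^ r * ((M' : ℝ) ^ r / d + κ)) * (20 * M)) := by
      unfold w
      exact mul_le_mul_of_nonneg_left h1 (by positivity)
    refine h2.trans (le_of_eq ?_)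
    simp only [G1, G2, hc]
    have : (d : ℝ) = y.2.1 * y.2.2.2.1 := by
      rw [hd]
      push_cast
      rfl
    rw [this]
    field_simp
  refine (Finset.sum_le_sum hpt).trans ?_
  rw [← Finset.mul_sum]
  refine mul_le_mul_of_nonneg_left ?_ hc0
  rw [Finset.sum_add_distrib, ← Finset.mul_sum, ← Finset.mul_sum]
  have e1 : ∑ y ∈ S, G1 y.2 ≤ 1296 * X / Real.sqrt z := by
    have h1 := sum_g X ((I4 X).filter (fun q => z < q.1 ∨ z < q.2.1 ∨ z < q.2.2.1 ∨ z < q.2.2.2))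
      G1 (fun q => by simp only [G1]; positivity) S
      (by
        intro q hq
        rw [Finset.mem_filter] at hq
        simp only [Finset.mem_product, Finset.mem_Icc] at hq
        exact ⟨hq.1.1.1, hq.1.2.1.1, hq.1.2.2.1.1, hq.1.2.2.2.1⟩)
      (by
        intro y hy
        obtain ⟨⟨p0, -⟩, h3, b1, b2, b4, -⟩ := hmem y hy
        exact ⟨Finset.mem_filter.2 ⟨h3, b4⟩, p0, b1, b2⟩)
    refine h1.trans ?_
    have h2 := sumG1 X z hz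
    have h3 : ∀ q ∈ (I4 X).filter (fun q => z < q.1 ∨ z < q.2.1 ∨ z < q.2.2.1 ∨ z < q.2.2.2),
        G1 q * (4 * X / (Real.sqrt q.1 * Real.sqrt q.2.1 *
          (Real.sqrt q.2.2.1 * Real.sqrt q.2.2.2))) =
        4 * X * (hh q.1 * hh q.2.1 * (hh q.2.2.1 * hh q.2.2.2)) := by
      intro q _
      simp only [G1, hh]
      ring
    rw [Finset.sum_congr rfl h3, ← Finset.mul_sum]
    calc 4 * (X : ℝ) * _ ≤ 4 * X * (324 / Real.sqrt z) :=
          mul_le_mul_of_nonneg_left h2 (by positivity)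
      _ = 1296 * X / Real.sqrt z := by ring
  have e2 : ∑ y ∈ S, G2 y.2 ≤ 72 * X * Real.sqrt D * (1 + Real.log D) := by
    have h1 := sum_g X ((I4 X).filter (fun q => q.1 * q.2.2.1 ≤ D))
      G2 (fun q => by simp only [G2]; positivity) S
      (by
        intro q hq
        rw [Finset.mem_filter] at hq
        simp only [Finset.mem_product, Finset.mem_Icc] at hq
        exact ⟨hq.1.1.1, hq.1.2.1.1, hq.1.2.2.1.1, hq.1.2.2.2.1⟩)
      (by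
        intro y hy
        obtain ⟨⟨p0, -⟩, h3, b1, b2, -, b4⟩ := hmem y hy
        exact ⟨Finset.mem_filter.2 ⟨h3, b4⟩, p0, b1, b2⟩)
    refine h1.trans ?_
    have h2 := sumG2 X D hD
    have h3 : ∀ q ∈ (I4 X).filter (fun q => q.1 * q.2.2.1 ≤ D),
        G2 q * (4 * X / (Real.sqrt q.1 * Real.sqrt q.2.1 *
          (Real.sqrt q.2.2.1 * Real.sqrt q.2.2.2))) =
        4 * X * (1 / (Real.sqrt q.1 * Real.sqrt q.2.2.1) * (hh q.2.1 * hh q.2.2.2)) := by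
      intro q _
      simp only [G2, hh]
      ring
    rw [Finset.sum_congr rfl h3, ← Finset.mul_sum]
    calc 4 * (X : ℝ) * _ ≤ 4 * X * (18 * Real.sqrt D * (1 + Real.log D)) :=
          mul_le_mul_of_nonneg_left h2 (by positivity)
      _ = 72 * X * Real.sqrt D * (1 + Real.log D) := by ring
  have hsD : 0 < Real.sqrt (D : ℝ) := Real.sqrt_pos.2 (by linarith)
  have e3 : κ * (72 * X * Real.sqrt D * (1 + Real.log D)) =
      72 * X * Real.sqrt D ^ r * (1 + Real.log D) := by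
    rw [hκ]
    field_simp
  rw [← e3]
  exact add_le_add (mul_le_mul_of_nonneg_left e1 (by positivity))
    (mul_le_mul_of_nonneg_left e2 hκ0)

/-! ## Large denominators -/

lemma ff_le2 (r M' d : ℕ) (hd : 1 ≤ d) (h : M' ≤ d) :
    ff r M' d ≤ (20 * M') ^ r * (Real.sqrt d ^ r / Real.sqrt d) := by
  have hd' : (1 : ℝ) ≤ d := by exact_mod_cast hd
  have h' : (M' : ℝ) ≤ d := by exact_mod_cast h
  set s := Real.sqrt (d : ℝ) with hs
  have hs1 : 0 < s := Real.sqrt_pos.2 (by linarith)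
  have hs2 : s ^ 2 = d := Real.sq_sqrt (by positivity)
  have hM : (0 : ℝ) ≤ M' := by positivity
  unfold ff
  rw [← hs]
  have h2 : 10 * (M' : ℝ) * (M' + d) / s ≤ (20 * M') * s := by
    rw [div_le_iff₀ hs1]
    have : (20 * (M' : ℝ)) * s * s = 20 * M' * d := by
      rw [mul_assoc, ← sq, hs2]
    rw [this]
    nlinarith
  calc (10 * (M' : ℝ) * (M' + d) / s) ^ r / s ≤ ((20 * M') * s) ^ r / s := by
        gcongr
    _ = (20 * M') ^ r * (s ^ r / s) := by rw [mul_pow, mul_div_assoc]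

/-- The summand for a pair. -/
noncomputable def hp (r M : ℕ) (t : ℝ) (ρ : ℕ × ℕ) : ℝ :=
  Real.sqrt ((ρ.1 * ρ.2 : ℕ) : ℝ) ^ r / Real.sqrt ((ρ.1 * ρ.2 : ℕ) : ℝ) * TT M (ρ.1 * ρ.2) t

lemma hp_nonneg (r M : ℕ) (t : ℝ) (ρ : ℕ × ℕ) : 0 ≤ hp r M t ρ := by
  unfold hp
  have := TT_nonneg M (ρ.1 * ρ.2) t
  positivity

lemma pair_sum (hT : S_T) (r M X D U V : ℕ) (t : ℝ) (hr : 1 ≤ r) (hM : 1 ≤ M) (hU : U ≤ 4 * X)
    (hMD : 4 * X * M ≤ D ^ 2) :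
    ∑ ρ ∈ (Icc 1 U ×ˢ Icc 1 V).filter (fun ρ => D < ρ.1 * ρ.2), hp r M t ρ ≤
      20 * Real.sqrt ((U * V : ℕ) : ℝ) ^ (r + 3) := by
  rcases le_or_gt (U * V) D with h | h
  · rw [Finset.filter_eq_empty_iff.2, Finset.sum_empty]
    · positivity
    · intro ρ hρ
      rw [Finset.mem_product, Finset.mem_Icc, Finset.mem_Icc] at hρ
      have := Nat.mul_le_mul hρ.1.2 hρ.2.2
      omega
  have hUV : 0 < U * V := by omega
  have hU0 : 0 < U := Nat.pos_of_mul_pos_right hUV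
  have hV0 : 0 < V := Nat.pos_of_mul_pos_left hUV
  set σ := Real.sqrt ((U * V : ℕ) : ℝ) with hσ
  have hσ0 : 0 < σ := Real.sqrt_pos.2 (by exact_mod_cast hUV)
  have hσ2 : σ ^ 2 = U * V := by
    rw [hσ, Real.sq_sqrt (by positivity)]
    push_cast
    ring
  have h1 : ∀ ρ ∈ (Icc 1 U ×ˢ Icc 1 V).filter (fun ρ => D < ρ.1 * ρ.2),
      hp r M t ρ ≤ σ ^ r / σ * TT M (ρ.1 * ρ.2) t := by
    intro ρ hρ
    rw [Finset.mem_filter, Finset.mem_product, Finset.mem_Icc, Finset.mem_Icc] at hρ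
    unfold hp
    refine mul_le_mul_of_nonneg_right ?_ (TT_nonneg _ _ _)
    have hd : 0 < ρ.1 * ρ.2 := Nat.mul_pos hρ.1.1.1 hρ.1.2.1
    have hs : 0 < Real.sqrt ((ρ.1 * ρ.2 : ℕ) : ℝ) := Real.sqrt_pos.2 (by exact_mod_cast hd)
    obtain ⟨k, rfl⟩ : ∃ k, r = k + 1 := ⟨r - 1, by omega⟩
    rw [pow_succ, mul_div_assoc, div_self hs.ne', mul_one, pow_succ, mul_div_assoc,
      div_self hσ0.ne', mul_one]
    refine pow_le_pow_left₀ hs.le (Real.sqrt_le_sqrt ?_) k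
    exact_mod_cast Nat.mul_le_mul hρ.1.1.2 hρ.1.2.2
  have h2 : ∑ ρ ∈ (Icc 1 U ×ˢ Icc 1 V).filter (fun ρ => D < ρ.1 * ρ.2), hp r M t ρ ≤
      ∑ ρ ∈ Icc 1 U ×ˢ Icc 1 V, σ ^ r / σ * TT M (ρ.1 * ρ.2) t := by
    refine (Finset.sum_le_sum h1).trans ?_
    refine Finset.sum_le_sum_of_subset_of_nonneg (Finset.filter_subset _ _) (fun ρ _ _ => ?_)
    have := TT_nonneg M (ρ.1 * ρ.2) t
    positivity
  refine h2.trans ?_
  rw [← Finset.mul_sum, Finset.sum_product]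
  have h3 : ∀ u ∈ Icc 1 U, ∑ v ∈ Icc 1 V, TT M (u * v) t ≤ 10 * (M + U * (V : ℝ) ^ 2) := by
    intro u hu
    rw [Finset.mem_Icc] at hu
    refine (hT M u V (Icc 1 V) t hM hu.1 (fun v hv => Finset.mem_Icc.1 hv)).trans ?_
    have : (u : ℝ) ≤ U := by exact_mod_cast hu.2
    gcongr
  have hMUV : M ≤ U * V ^ 2 := by
    by_contra hcon
    push Not at hcon
    have a1 : (U * V) ^ 2 = U * (U * V ^ 2) := by ring
    have a2 : U * (U * V ^ 2) ≤ 4 * X * (U * V ^ 2) := Nat.mul_le_mul_right _ hU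
    have hX : 0 < 4 * X := lt_of_lt_of_le hU0 hU
    have a3 : 4 * X * (U * V ^ 2) < 4 * X * M := Nat.mul_lt_mul_of_pos_left hcon hX
    have a4 : D ^ 2 < (U * V) ^ 2 := Nat.pow_lt_pow_left h (by norm_num)
    omega
  have hMUV' : (M : ℝ) ≤ U * (V : ℝ) ^ 2 := by exact_mod_cast hMUV
  have h4 : ∑ u ∈ Icc 1 U, ∑ v ∈ Icc 1 V, TT M (u * v) t ≤ 20 * σ ^ 4 := by
    refine (Finset.sum_le_sum h3).trans ?_
    rw [Finset.sum_const, Nat.card_Icc, Nat.add_sub_cancel, nsmul_eq_mul]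
    have : σ ^ 4 = (U : ℝ) ^ 2 * V ^ 2 := by
      calc σ ^ 4 = (σ ^ 2) ^ 2 := by ring
        _ = _ := by rw [hσ2]; ring
    rw [this]
    have hU' : (0 : ℝ) ≤ U := by positivity
    nlinarith
  calc σ ^ r / σ * ∑ u ∈ Icc 1 U, ∑ v ∈ Icc 1 V, TT M (u * v) t ≤ σ ^ r / σ * (20 * σ ^ 4) :=
        mul_le_mul_of_nonneg_left h4 (by positivity)
    _ = 20 * σ ^ (r + 3) := by
        rw [pow_add]
        field_simp

lemma case2 (hT : S_T) (r M M' X D : ℕ) (z t : ℝ) (hr : 1 ≤ r) (hM : 1 ≤ M) (hMD' : M' ≤ D)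
    (hMD : 4 * X * M ≤ D ^ 2) :
    ∑ y ∈ (Tu X z).filter (fun y => ¬ y.2.1 * y.2.2.2.1 ≤ D), w r M M' t y ≤
      M * (20 * M') ^ r * (160 * (4 * X) ^ (r + 3)) := by
  classical
  set S := (Tu X z).filter (fun y => ¬ y.2.1 * y.2.2.2.1 ≤ D) with hS
  have hmem : ∀ y ∈ S, (1 ≤ y.1 ∧ 1 ≤ y.2.1 ∧ 1 ≤ y.2.2.1 ∧ 1 ≤ y.2.2.2.1 ∧ 1 ≤ y.2.2.2.2) ∧
      (y.1 ≤ 4 * X ∧ y.2.2.1 ≤ 4 * X ∧ y.2.2.2.2 ≤ 4 * X) ∧
      y.1 * (y.2.1 * y.2.2.1) ≤ 4 * X ∧ y.1 * (y.2.2.2.1 * y.2.2.2.2) ≤ 4 * X ∧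
      D < y.2.1 * y.2.2.2.1 := by
    intro y hy
    rw [hS, Finset.mem_filter, Tu, Finset.mem_filter] at hy
    obtain ⟨⟨h1, h3, h4, -⟩, h6⟩ := hy
    simp only [Finset.mem_product, Finset.mem_Icc] at h1
    exact ⟨⟨h1.1.1, h1.2.1.1, h1.2.2.1.1, h1.2.2.2.1.1, h1.2.2.2.2.1⟩,
      ⟨h1.1.2, h1.2.2.1.2, h1.2.2.2.2.2⟩, h3, h4, not_le.1 h6⟩
  set c : ℝ := M * (20 * (M' : ℝ)) ^ r with hc
  have hc0 : 0 ≤ c := by positivity
  let I := Icc 1 (4 * X)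
  let T' : Finset (Σ _ : ℕ × ℕ × ℕ, ℕ × ℕ) := (I ×ˢ I ×ˢ I).sigma
    (fun τ => (Icc 1 (4 * X / (τ.1 * τ.2.1)) ×ˢ Icc 1 (4 * X / (τ.1 * τ.2.2))).filter
      (fun ρ => D < ρ.1 * ρ.2))
  let Φ : Tup → (Σ _ : ℕ × ℕ × ℕ, ℕ × ℕ) := fun y =>
    ⟨(y.1, y.2.2.1, y.2.2.2.2), (y.2.1, y.2.2.2.1)⟩
  let f : (Σ _ : ℕ × ℕ × ℕ, ℕ × ℕ) → ℝ := fun ω =>
    c * (1 / ((ω.1.2.1 : ℝ) * ω.1.2.2) * hp r M t ω.2)
  have hf0 : ∀ ω, 0 ≤ f ω := by
    intro ω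
    have := hp_nonneg r M t ω.2
    simp only [f]
    positivity
  have hpt : ∀ y ∈ S, w r M M' t y ≤ f (Φ y) := by
    intro y hy
    obtain ⟨⟨p0, p1, p2, p3, p4⟩, -, -, -, b3⟩ := hmem y hy
    have hd : 1 ≤ y.2.1 * y.2.2.2.1 := Nat.mul_pos p1 p3
    have h1 := ff_le2 r M' (y.2.1 * y.2.2.2.1) hd (by omega)
    have h2 := TT_nonneg M (y.2.1 * y.2.2.2.1) t
    unfold w
    simp only [f, Φ, hp]
    calc 1 / ((y.2.2.1 : ℝ) * y.2.2.2.2) *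
          (M * ff r M' (y.2.1 * y.2.2.2.1) * TT M (y.2.1 * y.2.2.2.1) t)
        ≤ 1 / ((y.2.2.1 : ℝ) * y.2.2.2.2) *
          (M * ((20 * M') ^ r * (Real.sqrt ((y.2.1 * y.2.2.2.1 : ℕ) : ℝ) ^ r /
            Real.sqrt ((y.2.1 * y.2.2.2.1 : ℕ) : ℝ))) * TT M (y.2.1 * y.2.2.2.1) t) := by
          gcongr
      _ = _ := by
          rw [hc]
          ring
  refine (Finset.sum_le_sum hpt).trans ?_
  have hinj : Set.InjOn Φ (S : Set Tup) := by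
    rintro ⟨g, u1, u2, v1, v2⟩ _ ⟨g', u1', u2', v1', v2'⟩ _ h
    simp only [Φ, Sigma.mk.injEq, Prod.mk.injEq, heq_eq_eq] at h
    obtain ⟨⟨rfl, rfl, rfl⟩, rfl, rfl⟩ := h
    rfl
  have hmap : ∀ y ∈ S, Φ y ∈ T' := by
    intro y hy
    obtain ⟨⟨p0, p1, p2, p3, p4⟩, ⟨b1, b2, b3⟩, b4, b5, b6⟩ := hmem y hy
    simp only [T', Φ, I, Finset.mem_sigma, Finset.mem_product, Finset.mem_filter, Finset.mem_Icc]
    refine ⟨⟨⟨p0, b1⟩, ⟨p2, b2⟩, ⟨p4, b3⟩⟩, ⟨⟨p1, ?_⟩, ⟨p3, ?_⟩⟩, b6⟩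
    · rw [Nat.le_div_iff_mul_le (Nat.mul_pos p0 p2)]
      calc y.2.1 * (y.1 * y.2.2.1) = y.1 * (y.2.1 * y.2.2.1) := by ring
        _ ≤ 4 * X := b4
    · rw [Nat.le_div_iff_mul_le (Nat.mul_pos p0 p4)]
      calc y.2.2.2.1 * (y.1 * y.2.2.2.2) = y.1 * (y.2.2.2.1 * y.2.2.2.2) := by ring
        _ ≤ 4 * X := b5
  refine (sum_inj_le S T' Φ f (fun ω _ => hf0 ω) hinj hmap).trans ?_
  simp only [T', f]
  rw [Finset.sum_sigma]
  simp only
  have h1 : ∀ τ ∈ I ×ˢ I ×ˢ I,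
      ∑ ρ ∈ (Icc 1 (4 * X / (τ.1 * τ.2.1)) ×ˢ Icc 1 (4 * X / (τ.1 * τ.2.2))).filter
        (fun ρ => D < ρ.1 * ρ.2), c * (1 / ((τ.2.1 : ℝ) * τ.2.2) * hp r M t ρ) ≤
      c * (20 * (4 * X) ^ (r + 3)) *
        (1 / (τ.1 : ℝ) ^ 2 * (1 / (τ.2.1 : ℝ) ^ 2 * (1 / (τ.2.2 : ℝ) ^ 2))) := by
    intro τ hτ
    simp only [Finset.mem_product, Finset.mem_Icc, I] at hτ
    obtain ⟨⟨g1, -⟩, ⟨u1, -⟩, ⟨v1, -⟩⟩ := hτ
    have g1' : (1 : ℝ) ≤ τ.1 := by exact_mod_cast g1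
    have u1' : (1 : ℝ) ≤ τ.2.1 := by exact_mod_cast u1
    have v1' : (1 : ℝ) ≤ τ.2.2 := by exact_mod_cast v1
    rw [← Finset.mul_sum, ← Finset.mul_sum]
    have h2 := pair_sum hT r M X D (4 * X / (τ.1 * τ.2.1)) (4 * X / (τ.1 * τ.2.2)) t hr hM
      (Nat.div_le_self _ _) hMD
    set σ := Real.sqrt (((4 * X / (τ.1 * τ.2.1)) * (4 * X / (τ.1 * τ.2.2)) : ℕ) : ℝ) with hσ
    have hσ0 : 0 ≤ σ := Real.sqrt_nonneg _
    set g : ℝ := (τ.1 : ℝ) with hg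
    set a := Real.sqrt (τ.2.1 : ℝ) with ha
    set b := Real.sqrt (τ.2.2 : ℝ) with hb
    have a1 : 1 ≤ a := by
      rw [ha, Real.one_le_sqrt]
      exact u1'
    have b1 : 1 ≤ b := by
      rw [hb, Real.one_le_sqrt]
      exact v1'
    have ha2 : a ^ 2 = τ.2.1 := Real.sq_sqrt (by positivity)
    have hb2 : b ^ 2 = τ.2.2 := Real.sq_sqrt (by positivity)
    have h3 : σ ≤ 4 * X / (g * (a * b)) := by
      rw [hσ]
      refine Real.sqrt_le_iff.2 ⟨by positivity, ?_⟩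
      push_cast
      have e1 : ((4 * X / (τ.1 * τ.2.1) : ℕ) : ℝ) ≤ (4 * X) / (g * τ.2.1) := by
        refine Nat.cast_div_le.trans (le_of_eq ?_)
        push_cast
        rfl
      have e2 : ((4 * X / (τ.1 * τ.2.2) : ℕ) : ℝ) ≤ (4 * X) / (g * τ.2.2) := by
        refine Nat.cast_div_le.trans (le_of_eq ?_)
        push_cast
        rfl
      refine (mul_le_mul e1 e2 (by positivity) (by positivity)).trans (le_of_eq ?_)
      rw [← ha2, ← hb2]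
      field_simp
    have h4 : σ ^ (r + 3) ≤ (4 * X) ^ (r + 3) / (g ^ 4 * (a ^ 4 * b ^ 4)) := by
      refine (pow_le_pow_left₀ hσ0 h3 _).trans ?_
      rw [div_pow]
      refine div_le_div_of_nonneg_left (by positivity) (by positivity) ?_
      have h5 : 1 ≤ g * (a * b) := by
        have : 1 ≤ a * b := one_le_mul_of_one_le_of_one_le a1 b1
        exact one_le_mul_of_one_le_of_one_le g1' this
      calc g ^ 4 * (a ^ 4 * b ^ 4) = (g * (a * b)) ^ 4 := by ring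
        _ ≤ (g * (a * b)) ^ (r + 3) := pow_le_pow_right₀ h5 (by omega)
    have h6 : 1 / ((τ.2.1 : ℝ) * τ.2.2) * (20 * σ ^ (r + 3)) ≤
        (20 * (4 * X) ^ (r + 3)) * (1 / g ^ 2 * (1 / (τ.2.1 : ℝ) ^ 2 * (1 / (τ.2.2 : ℝ) ^ 2))) := by
      have e1 : 1 / ((τ.2.1 : ℝ) * τ.2.2) * (20 * σ ^ (r + 3)) ≤
          1 / ((τ.2.1 : ℝ) * τ.2.2) * (20 * ((4 * X) ^ (r + 3) / (g ^ 4 * (a ^ 4 * b ^ 4)))) := by
        gcongr
      refine e1.trans ?_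
      have e2 : a ^ 4 = (τ.2.1 : ℝ) ^ 2 := by
        rw [← ha2]
        ring
      have e3 : b ^ 4 = (τ.2.2 : ℝ) ^ 2 := by
        rw [← hb2]
        ring
      rw [e2, e3]
      have e4 : 1 / ((τ.2.1 : ℝ) * τ.2.2) * (20 * ((4 * X) ^ (r + 3) /
          (g ^ 4 * ((τ.2.1 : ℝ) ^ 2 * (τ.2.2 : ℝ) ^ 2)))) =
          (20 * (4 * X) ^ (r + 3)) * (1 / g ^ 2 * (1 / (τ.2.1 : ℝ) ^ 2 * (1 / (τ.2.2 : ℝ) ^ 2))) *
            (1 / (g ^ 2 * (τ.2.1 * τ.2.2))) := by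
        field_simp
      rw [e4]
      refine mul_le_of_le_one_right (by positivity) ?_
      rw [div_le_one (by positivity)]
      have : 1 ≤ (τ.2.1 : ℝ) * τ.2.2 := one_le_mul_of_one_le_of_one_le u1' v1'
      have h7 : 1 ≤ g ^ 2 := one_le_pow₀ g1'
      exact one_le_mul_of_one_le_of_one_le h7 this
    calc c * (1 / ((τ.2.1 : ℝ) * τ.2.2) * _) ≤
          c * (1 / ((τ.2.1 : ℝ) * τ.2.2) * (20 * σ ^ (r + 3))) := by
          refine mul_le_mul_of_nonneg_left ?_ hc0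
          exact mul_le_mul_of_nonneg_left h2 (by positivity)
      _ ≤ c * ((20 * (4 * X) ^ (r + 3)) *
          (1 / g ^ 2 * (1 / (τ.2.1 : ℝ) ^ 2 * (1 / (τ.2.2 : ℝ) ^ 2)))) :=
          mul_le_mul_of_nonneg_left h6 hc0
      _ = _ := by ring
  refine (Finset.sum_le_sum h1).trans ?_
  rw [← Finset.mul_sum]
  have h2 : ∑ τ ∈ I ×ˢ I ×ˢ I, (1 / (τ.1 : ℝ) ^ 2 * (1 / (τ.2.1 : ℝ) ^ 2 *
      (1 / (τ.2.2 : ℝ) ^ 2))) = (∑ n ∈ I, 1 / (n : ℝ) ^ 2) *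
        ((∑ n ∈ I, 1 / (n : ℝ) ^ 2) * ∑ n ∈ I, 1 / (n : ℝ) ^ 2) := by
    rw [Finset.sum_product]
    simp_rw [Finset.sum_product]
    simp_rw [← Finset.mul_sum, ← Finset.sum_mul]
  rw [h2]
  have h3 := sum_inv_sq (4 * X)
  have h4 : 0 ≤ ∑ n ∈ Icc 1 (4 * X), 1 / (n : ℝ) ^ 2 := Finset.sum_nonneg fun n _ => by positivity
  set q := ∑ n ∈ Icc 1 (4 * X), 1 / (n : ℝ) ^ 2 with hq
  have h5 : q * (q * q) ≤ 8 := by
    have : q * q ≤ 4 := by nlinarith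
    nlinarith
  calc c * (20 * (4 * X) ^ (r + 3)) * (q * (q * q)) ≤ c * (20 * (4 * X) ^ (r + 3)) * 8 :=
        mul_le_mul_of_nonneg_left h5 (by positivity)
    _ = _ := by
        rw [hc]
        ring

end Pool.Agent.Helper64.AS.Top

namespace Pool.Agent.Helper64.AS

open Top

theorem top (hKA : S_KA) (hT : S_T) : S_top := by
  intro r hr
  refine ⟨8 * 20 ^ r * (26000 + 160 * 4 ^ (r + 3)), by positivity, ?_⟩
  intro M M' X D z k₀ 𝒜 t x hz hM' hX hXM hMD' hMD h𝒜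
  have hM : 1 ≤ M := le_trans (by nlinarith) hXM
  have hD : 1 ≤ D := hM'.trans hMD'
  have hD' : (1 : ℝ) ≤ D := by exact_mod_cast hD
  have hl : 0 ≤ Real.log D := Real.log_nonneg hD'
  refine (total_le hKA h𝒜 hz r M M' hM hM' k₀ t x).trans ?_
  rw [← Finset.sum_filter_add_sum_filter_not (Tu X z) (fun y => y.2.1 * y.2.2.2.1 ≤ D)]
  have h1 := case1 hT r M M' X D z t hr hz hX hXM hD
  have h2 := case2 hT r M M' X D z t hr hM hMD' hMD
  set a : ℝ := M * M' ^ r * X / Real.sqrt z with ha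
  set b : ℝ := M * X * Real.sqrt D ^ r * (1 + Real.log D) with hb
  set d : ℝ := (X : ℝ) ^ (r + 3) with hd
  have ha0 : 0 ≤ a := by positivity
  have hb0 : 0 ≤ b := by positivity
  have hd0 : 0 ≤ d := by positivity
  have e1 : 20 * (M : ℝ) ^ 2 * (20 * M') ^ r * ((M' : ℝ) ^ r * (1296 * X / Real.sqrt z) +
        72 * X * Real.sqrt D ^ r * (1 + Real.log D)) =
      20 ^ r * (M * M' ^ r) * (25920 * a + 1440 * b) := by
    rw [ha, hb, mul_pow]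
    ring
  have e2 : M * (20 * (M' : ℝ)) ^ r * (160 * (4 * X) ^ (r + 3)) =
      20 ^ r * (M * M' ^ r) * (160 * 4 ^ (r + 3) * d) := by
    rw [hd, mul_pow, mul_pow]
    ring
  rw [e1] at h1
  rw [e2] at h2
  have h3 : (0 : ℝ) ≤ 20 ^ r * (M * M' ^ r) := by positivity
  have h4 : (0 : ℝ) < 160 * 4 ^ (r + 3) := by positivity
  have h5 : 25920 * a + 1440 * b + 160 * 4 ^ (r + 3) * d ≤
      (26000 + 160 * 4 ^ (r + 3)) * (a + b + d) := by
    have := mul_nonneg h4.le ha0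
    have := mul_nonneg h4.le hb0
    nlinarith
  calc 8 * (∑ y ∈ (Tu X z).filter (fun y => y.2.1 * y.2.2.2.1 ≤ D), w r M M' t y +
        ∑ y ∈ (Tu X z).filter (fun y => ¬ y.2.1 * y.2.2.2.1 ≤ D), w r M M' t y)
      ≤ 8 * (20 ^ r * (M * M' ^ r) * (25920 * a + 1440 * b) +
        20 ^ r * (M * M' ^ r) * (160 * 4 ^ (r + 3) * d)) := by linarith
    _ = 8 * (20 ^ r * (M * M' ^ r) * (25920 * a + 1440 * b + 160 * 4 ^ (r + 3) * d)) := by ring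
    _ ≤ 8 * (20 ^ r * (M * M' ^ r) * ((26000 + 160 * 4 ^ (r + 3)) * (a + b + d))) := by
        gcongr
    _ = _ := by ring

end Pool.Agent.Helper64.AS
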