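import Pool.Agent.Helper34.AS.KA
import Pool.Agent.Helper49.AS.crude
import Pool.Agent.Helper62.AS.LS
import Pool.Agent.Helper62.AS.LSall
import Pool.Agent.Helper62.AS.Lp
import Pool.Agent.Helper62.AS.psi
import Pool.Agent.Helper63.AS.LSmid
import Pool.Agent.Helper64.AS.mid
import Pool.Agent.Helper64.AS.top
import Pool.Agent.Helper70.AS.T
import Pool.Agent.Helper70.AS.gauss
import Pool.Agent.Helper70.AS.space
import Pool.Agent.Helper71.AS.LStop
import Pool.Agent.Helper71.AS.rough
import Pool.Agent.Helper95.AS.fej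
import Pool.Agent.Helper95.AS.primes
import Pool.Agent.Helper96.AS.dual

/-!
# Anisotropic Strichartz estimates: assembly
-/

set_option autoImplicit false

namespace Pool.Agent.Helper64.AS

theorem m_fej : S_fej := Pool.Agent.Helper95.AS.s_fej
theorem m_primes : S_primes := Pool.Agent.Helper95.AS.s_primes
theorem m_space : S_space := Pool.Agent.Helper70.AS.space.space m_fej
theorem m_gauss : S_gauss := Pool.Agent.Helper70.AS.gauss.gauss
theorem m_weyl : S_weyl := Pool.Agent.Helper70.AS.gauss.weyl m_gauss m_space m_fej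
theorem m_psi : S_psi := Pool.Agent.Helper62.AS.psi.psi
theorem m_KA : S_KA := Pool.Agent.Helper34.AS.KA_bound m_psi m_fej m_weyl
theorem m_T : S_T := Pool.Agent.Helper70.AS.T.T m_space m_fej
theorem m_mid : S_mid := mid m_KA m_T
theorem m_top : S_top := top m_KA m_T
theorem m_rough : S_rough := Pool.Agent.Helper71.AS.rough m_primes
theorem m_dual : S_dual := Pool.Agent.Helper96.AS.Dual.dual
theorem m_crude : S_crude := Pool.Agent.Helper49.AS.crude
theorem m_LSmid : S_LSmid := Pool.Agent.Helper63.AS.LSmid.lsmid_of m_dual m_mid m_primes m_psi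
theorem m_LStop : S_LStop := Pool.Agent.Helper71.AS.LStop m_dual m_top m_rough m_psi
theorem m_LS : S_LS := Pool.Agent.Helper62.AS.LS.LS m_LSmid m_LStop m_crude
theorem m_Lp : S_Lp := Pool.Agent.Helper62.AS.Lp.Lp m_LS
theorem m_LSall : S_LSall := Pool.Agent.Helper62.AS.LSall.LSall m_LStop m_crude
theorem m_Lpall : S_Lpall := Pool.Agent.Helper62.AS.LSall.Lpall m_LS m_LSall

end Pool.Agent.Helper64.AS
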